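import Pool.Agent.Y294.AN.Meas

/-!
# Absolute continuity of the measure, and the derivative at the inner states
-/

set_option autoImplicit false

namespace Pool.Agent.Y294.AN

open Complex Set Filter Topology MeasureTheory
open scoped ContDiff ComplexConjugate ENNReal

/-- a property holding at almost every point of the circle -/
theorem ae_circle {P : Ci → Prop} (hP : MeasurableSet {u | P u})
    (h : ∀ᵐ (a : ℝ) ∂(volume.restrict (Ioc (0 : ℝ) (2 * Real.pi))), P (a : Ci)) :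
    ∀ᵐ u ∂(AddCircle.haarAddCircle : Measure Ci), P u := by
  have h1 : ∀ᵐ u ∂(volume : Measure Ci), P u := by
    have hm := AddCircle.measurePreserving_mk (2 * Real.pi) 0
    rw [zero_add] at hm
    rw [← hm.map_eq, ae_map_iff hm.measurable.aemeasurable hP]
    exact h
  have h2 : ENNReal.ofReal (2 * Real.pi) * (AddCircle.haarAddCircle : Measure Ci) {u : Ci | ¬ P u} = 0 := by
    have h3 := ae_iff.1 h1
    rw [AddCircle.volume_eq_smul_haarAddCircle] at h3
    exact h3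
  rw [mul_eq_zero] at h2
  rcases h2 with h2 | h2
  · exfalso
    rw [ENNReal.ofReal_eq_zero] at h2
    linarith [Real.pi_pos]
  · exact ae_iff.2 h2

theorem measurable_state (i : Fin 2) : Measurable fun z : ℝ × ℝ => state ca i z.1 z.2 := by
  have h1 : Continuous (ca i) := (table.smooth i).continuous
  have h2 : Continuous (deriv (ca i)) := (table.smooth i).continuous_deriv (by simp)
  unfold state normal
  apply Continuous.measurable
  fun_prop

theorem liou_ae (i : Fin 2) {S : Set (ℂ × ℂ)} (hS : MeasurableSet S)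
    (h : liouville la ca S = 0) :
    ∀ᵐ φ ∂(volume.restrict (Ioo (-(Real.pi / 2)) (Real.pi / 2))),
      ∀ᵐ r ∂(volume.restrict (Ioc 0 (la i))), state ca i r φ ∉ S := by
  have h1 : Measure.map (fun z : ℝ × ℝ => state ca i z.1 z.2)
    ((volume.restrict (Ioc 0 (la i) ×ˢ Ioo (-(Real.pi / 2)) (Real.pi / 2))).withDensity
      fun z => ENNReal.ofReal (Real.cos z.2)) S = 0 := by
    unfold liouville at h
    rw [Measure.finsetSum_apply, Finset.sum_eq_zero_iff] at h
    exact h i (Finset.mem_univ i)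
  rw [Measure.map_apply (measurable_state i) hS, withDensity_apply_eq_zero (by fun_prop)] at h1
  have h2 : ∀ᵐ z ∂((volume : Measure (ℝ × ℝ)).restrict
      (Ioc 0 (la i) ×ˢ Ioo (-(Real.pi / 2)) (Real.pi / 2))), state ca i z.1 z.2 ∉ S := by
    filter_upwards [measure_eq_zero_iff_ae_notMem.1 h1,
      ae_restrict_mem (measurableSet_Ioc.prod measurableSet_Ioo)] with z hz hz2 hz3
    apply hz
    refine ⟨?_, hz3⟩
    have hc : 0 < Real.cos z.2 := Real.cos_pos_of_mem_Ioo hz2.2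
    show ENNReal.ofReal (Real.cos z.2) ≠ 0
    rw [Ne, ENNReal.ofReal_eq_zero, not_le]
    exact hc
  rw [Measure.volume_eq_prod, ← Measure.prod_restrict] at h2
  have hm : MeasurableSet {z : ℝ × ℝ | state ca i z.1 z.2 ∉ S} := (measurable_state i hS).compl
  exact (Measure.ae_ae_comm hm).1 (Measure.ae_ae_of_ae_prod h2)

theorem null_pull {h g : ℝ → ℝ} {U : Set ℝ} (hg : DifferentiableOn ℝ g U)
    (hU : ∀ s ∈ Ioo (0 : ℝ) 1, h s ∈ U ∧ g (h s) = s)
    (hU2 : U ⊆ Ioo (-(Real.pi / 2)) (Real.pi / 2)) {P : ℝ → Prop}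
    (hP : ∀ᵐ φ ∂(volume.restrict (Ioo (-(Real.pi / 2)) (Real.pi / 2))), P φ) :
    ∀ᵐ s ∂(volume.restrict (Ioo (0 : ℝ) 1)), P (h s) := by
  rw [ae_restrict_iff' measurableSet_Ioo] at hP
  have h1 : volume (U ∩ {φ | ¬ P φ}) = 0 := by
    refine measure_mono_null ?_ (ae_iff.1 hP)
    intro x hx hc
    exact hx.2 (hc (hU2 hx.1))
  have h2 : volume (g '' (U ∩ {φ | ¬ P φ})) = 0 :=
    addHaar_image_eq_zero_of_differentiableOn_of_addHaar_eq_zero volume
      (hg.mono inter_subset_left) h1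
  rw [ae_restrict_iff' measurableSet_Ioo]
  filter_upwards [measure_eq_zero_iff_ae_notMem.1 h2] with s hs hs1
  by_contra hc
  exact hs ⟨h s, ⟨(hU s hs1).1, hc⟩, (hU s hs1).2⟩

/-- the parameter as a function of the outer angle -/
noncomputable def g0 (φ : ℝ) : ℝ := -2 / Real.log (1 - 4 * Real.sin φ ^ 2)

/-- the parameter as a function of the inner angle -/
noncomputable def g1 (φ : ℝ) : ℝ := -1 / Real.log (Real.cos φ)

/-- the outer angles -/
def U0 : Set ℝ := {φ | φ ∈ Ioo (-(Real.pi / 2)) (Real.pi / 2) ∧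
  0 < 1 - 4 * Real.sin φ ^ 2 ∧ 1 - 4 * Real.sin φ ^ 2 < 1}

/-- the inner angles -/
def U1 : Set ℝ := {φ | φ ∈ Ioo (-(Real.pi / 2)) (Real.pi / 2) ∧
  0 < Real.cos φ ∧ Real.cos φ < 1}

theorem g0_diff : DifferentiableOn ℝ g0 U0 := by
  intro φ hφ
  have h1 : Real.log (1 - 4 * Real.sin φ ^ 2) ≠ 0 := (Real.log_neg hφ.2.1 hφ.2.2).ne
  have h2 : DifferentiableAt ℝ (fun φ => Real.log (1 - 4 * Real.sin φ ^ 2)) φ := by
    have h3 : DifferentiableAt ℝ (fun φ : ℝ => 1 - 4 * Real.sin φ ^ 2) φ := by fun_prop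
    exact h3.log hφ.2.1.ne'
  exact ((differentiableAt_const _).div h2 h1).differentiableWithinAt

theorem g1_diff : DifferentiableOn ℝ g1 U1 := by
  intro φ hφ
  have h1 : Real.log (Real.cos φ) ≠ 0 := (Real.log_neg hφ.2.1 hφ.2.2).ne
  have h2 : DifferentiableAt ℝ (fun φ => Real.log (Real.cos φ)) φ := by
    have h3 : DifferentiableAt ℝ (fun φ : ℝ => Real.cos φ) φ := by fun_prop
    exact h3.log hφ.2.1.ne'
  exact ((differentiableAt_const _).div h2 h1).differentiableWithinAt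

theorem mem_U0 {s : ℝ} (hs : s ∈ Ioo (0 : ℝ) 1) : -bt (ps s) ∈ U0 ∧ g0 (-bt (ps s)) = s := by
  have hb := abs_lt.1 (abs_bt (ps s))
  have hc := cos_ps hs
  have he := exp_mem hs
  have h1 : 1 - 4 * Real.sin (-bt (ps s)) ^ 2 = Real.exp (-s⁻¹) ^ 2 := by
    rw [Real.sin_neg, sin_bt, ← hc]
    nlinarith [Real.sin_sq_add_cos_sq (ps s)]
  refine ⟨⟨⟨by linarith, by linarith⟩, ?_, ?_⟩, ?_⟩
  · rw [h1]; exact pow_pos he.1 2
  · rw [h1]; nlinarith [he.1, he.2]
  · unfold g0
    rw [h1, Real.log_pow, Real.log_exp]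
    have := hs.1.ne'
    field_simp
    push_cast
    ring

theorem mem_U1 {s : ℝ} (hs : s ∈ Ioo (0 : ℝ) 1) : ps s ∈ U1 ∧ g1 (ps s) = s := by
  have hc := cos_ps hs
  have he := exp_mem hs
  have hp := ps_mem hs
  refine ⟨⟨⟨by linarith [hp.1, Real.pi_pos], hp.2⟩, ?_, ?_⟩, ?_⟩
  · rw [hc]; exact he.1
  · rw [hc]; exact he.2
  · unfold g1
    rw [hc, Real.log_exp]
    have := hs.1.ne'
    field_simp

theorem ac0 : Measure.map Y0 rho ≪ liouville la ca := by
  refine Measure.AbsolutelyContinuous.mk fun S hS h => ?_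
  rw [Measure.map_apply measurable_Y0 hS]
  have h2 := null_pull (h := fun s => -bt (ps s)) g0_diff (fun s hs => mem_U0 hs)
    (fun x hx => hx.1) (liou_ae 0 hS h)
  have h3 : ∀ᵐ s ∂(volume.restrict (Ioo (0 : ℝ) 1)),
      ∀ᵐ u ∂(AddCircle.haarAddCircle : Measure Ci), Y0 (s, u) ∉ S := by
    filter_upwards [h2] with s hs
    apply ae_circle ((measurable_Y0.comp measurable_prodMk_left) hS).compl
    rw [ae_restrict_iff' measurableSet_Ioc] at hs
    have h5 : volume ((2 * ·) ⁻¹' {r : ℝ | ¬ (r ∈ Ioc 0 (la 0) →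
        state ca 0 r (-bt (ps s)) ∉ S)}) = 0 := by
      rw [Real.volume_preimage_mul_left (by norm_num), ae_iff.1 hs, mul_zero]
    refine (ae_restrict_iff' (measurableSet_Ioc : MeasurableSet (Ioc (0 : ℝ) (2 * Real.pi)))).2 ?_
    filter_upwards [measure_eq_zero_iff_ae_notMem.1 h5] with a ha ha1
    have h6 := not_not.1 ha ⟨by linarith [ha1.1], by
      show 2 * a ≤ 4 * Real.pi
      linarith [ha1.2]⟩
    show Y0 (s, (a : Ci)) ∉ S
    rw [Y0_coe, X0_state]
    exact h6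
  have h4 : ∀ᵐ z ∂rho, Y0 z ∉ S := by
    exact (Measure.ae_prod_iff_ae_ae (p := fun z => Y0 z ∉ S) (measurable_Y0 hS).compl).2 h3
  exact measure_eq_zero_iff_ae_notMem.2 h4

theorem ac1 : Measure.map Y1 rho ≪ liouville la ca := by
  refine Measure.AbsolutelyContinuous.mk fun S hS h => ?_
  rw [Measure.map_apply measurable_Y1 hS]
  have h2 := null_pull (h := fun s => ps s) g1_diff (fun s hs => mem_U1 hs)
    (fun x hx => hx.1) (liou_ae 1 hS h)
  have h3 : ∀ᵐ s ∂(volume.restrict (Ioo (0 : ℝ) 1)),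
      ∀ᵐ u ∂(AddCircle.haarAddCircle : Measure Ci), Y1 (s, u) ∉ S := by
    filter_upwards [h2] with s hs
    apply ae_circle ((measurable_Y1.comp measurable_prodMk_left) hS).compl
    rw [ae_restrict_iff' measurableSet_Ioc] at hs
    have h5 : volume ((fun a : ℝ => 2 * Real.pi - a) ⁻¹' {r : ℝ | ¬ (r ∈ Ioc 0 (la 1) →
        state ca 1 r (ps s) ∉ S)}) = 0 :=
      (Measure.measurePreserving_sub_left volume (2 * Real.pi)).quasiMeasurePreserving.preimage_null
        (ae_iff.1 hs)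
    have h7 : ∀ᵐ a : ℝ ∂volume, a ∉ ({2 * Real.pi} : Set ℝ) :=
      measure_eq_zero_iff_ae_notMem.1 (measure_singleton _)
    refine (ae_restrict_iff' (measurableSet_Ioc : MeasurableSet (Ioc (0 : ℝ) (2 * Real.pi)))).2 ?_
    filter_upwards [measure_eq_zero_iff_ae_notMem.1 h5, h7] with a ha ha7 ha1
    have h6 := not_not.1 ha ⟨by
      have := lt_of_le_of_ne ha1.2 ha7
      linarith, by
      show 2 * Real.pi - a ≤ 2 * Real.pi
      linarith [ha1.1]⟩
    show Y1 (s, (a : Ci)) ∉ S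
    rw [Y1_coe, X1_state]
    have h8 : state ca 1 (2 * Real.pi - a) (ps s) = state ca 1 (-a) (ps s) := by
      have h9 : ca 1 (-a) = ca 1 (2 * Real.pi - a) := by
        refine (table.simple 1 1 _ _).2 ⟨rfl, 1, ?_⟩
        show 2 * Real.pi - a = -a + ((1 : ℤ) : ℝ) * (2 * Real.pi)
        push_cast
        ring
      unfold state
      rw [table.normal_eq h9, h9]
    rw [← h8]
    exact h6
  have h4 : ∀ᵐ z ∂rho, Y1 z ∉ S := by
    exact (Measure.ae_prod_iff_ae_ae (p := fun z => Y1 z ∉ S) (measurable_Y1 hS).compl).2 h3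
  exact measure_eq_zero_iff_ae_notMem.2 h4

theorem hasDerivative1 (b ψ : ℝ) (hψ : |ψ| < Real.pi / 2) :
    ∃ A, HasDerivative Ann ca (X1 b ψ) A := by
  have hsin : |Real.sin ψ / 2| < 1 := by
    have h1 := Real.abs_sin_le_one ψ
    rw [abs_div, abs_two]
    linarith
  have hs' := abs_lt.1 hsin
  have hbt : DifferentiableAt ℝ bt ψ := by
    have h1 : DifferentiableAt ℝ (fun x : ℝ => Real.sin x / 2) ψ := by fun_prop
    have h2 : DifferentiableAt ℝ Real.arcsin (Real.sin ψ / 2) :=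
      (Real.hasDerivAt_arcsin (by linarith) (by linarith)).differentiableAt
    exact h2.comp ψ h1
  have hbt2 : DifferentiableAt ℝ (fun z : ℝ × ℝ => bt z.2) (-b, ψ) :=
    DifferentiableAt.comp (𝕜 := ℝ) (f := fun z : ℝ × ℝ => z.2) (g := bt) (-b, ψ) hbt
      differentiableAt_snd
  have h4 : DifferentiableAt ℝ (fun z : ℝ × ℝ => z.2) (-b, ψ) := by fun_prop
  have h5 : DifferentiableAt ℝ (fun z : ℝ × ℝ => z.1) (-b, ψ) := by fun_prop
  have hd : DifferentiableAt ℝ (fun z : ℝ × ℝ => ((2 * (-z.1 + (z.2 - bt z.2)), -bt z.2) : ℝ × ℝ))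
      (-b, ψ) :=
    ((h5.neg.add (h4.sub hbt2)).const_mul 2).prodMk hbt2.neg
  refine ⟨_, 1, 0, -b, ψ, _, hψ, X1_state b ψ, hd.hasFDerivAt, ?_⟩
  have e1 : ∀ᶠ z : ℝ × ℝ in 𝓝 (-b, ψ), |z.2| < Real.pi / 2 := by
    have hc : ContinuousAt (fun z : ℝ × ℝ => |z.2|) (-b, ψ) := by fun_prop
    exact hc.eventually (gt_mem_nhds hψ)
  filter_upwards [e1] with z h1
  refine ⟨by rw [abs_neg]; exact abs_bt _, ?_⟩
  have h6 := step10 (-z.1) z.2 h1
  rw [X0_state, X1_state, neg_neg] at h6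
  exact h6

/-- the derivative exists almost everywhere -/
theorem ae_hasDerivative : ∀ᵐ x ∂mu, ∃ A, HasDerivative Ann ca x A := by
  filter_upwards [ae_orb] with x hx
  obtain ⟨a, ψ, k, hψ, -, -, rfl | ⟨b, rfl⟩⟩ := hx
  · exact hasDerivative a ψ (abs_lt_of_mem hψ)
  · exact hasDerivative1 b ψ (abs_lt_of_mem hψ)

theorem ac : mu ≪ liouville la ca := by
  unfold mu
  exact Measure.AbsolutelyContinuous.add_left (ac0.smul_left _) (ac1.smul_left _)

end Pool.Agent.Y294.AN
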