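import Pool.Agent.Y294.AN.Defs

/-!
# Uniqueness of the billiard step, and the annulus as a table
-/

set_option autoImplicit false

namespace Pool.Agent.Y294.AN

open Complex Set Filter Topology MeasureTheory
open scoped ContDiff ComplexConjugate

section General

variable {N : ℕ} {Q : Set ℂ} {ℓ : Fin N → ℝ} {c : Fin N → ℝ → ℂ}

theorem IsTable.deriv_per (h : IsTable Q ℓ c) (i : Fin N) (r : ℝ) (k : ℤ) :
    deriv (c i) (r + k * ℓ i) = deriv (c i) r := by
  have h1 : (fun x => c i (x + k * ℓ i)) = c i := by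
    funext x
    exact ((h.simple i i x _).2 ⟨rfl, k, rfl⟩).symm
  have h2 : deriv (fun x => c i (x + k * ℓ i)) r = deriv (c i) (r + k * ℓ i) :=
    deriv_comp_add_const _ _ _
  rw [← h2, h1]

theorem IsTable.normal_eq (h : IsTable Q ℓ c) {i j : Fin N} {r s : ℝ} (e : c i r = c j s) :
    normal c i r = normal c j s := by
  obtain ⟨rfl, k, rfl⟩ := (h.simple i j r s).1 e
  unfold normal
  rw [h.deriv_per]

theorem IsTable.not_interior (h : IsTable Q ℓ c) (i : Fin N) (r : ℝ) : c i r ∉ interior Q := by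
  have h1 : c i r ∈ frontier Q := by
    rw [h.boundary]
    exact mem_iUnion.2 ⟨i, r, rfl⟩
  exact fun h2 => (disjoint_interior_frontier.ne_of_mem h2 h1) rfl

theorem Step.unique (h : IsTable Q ℓ c) {x y y' : ℂ × ℂ} (h1 : Step Q c x y)
    (h2 : Step Q c x y') : y = y' := by
  obtain ⟨i, j, r, r', φ, φ', t, -, -, ht, -, hy, e1, s1, e2⟩ := h1
  obtain ⟨i₂, j₂, r₂, r₂', φ₂, φ₂', t₂, -, -, ht₂, -, hy₂, e1₂, s1₂, e2₂⟩ := h2
  have hyc : y.1 = c j r' := by rw [hy]; rfl
  have hyc₂ : y'.1 = c j₂ r₂' := by rw [hy₂]; rfl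
  have htt : t = t₂ := by
    rcases lt_trichotomy t t₂ with h3 | h3 | h3
    · have h4 := s1₂ t ⟨ht, h3⟩
      rw [← e1, hyc] at h4
      exact absurd h4 (h.not_interior _ _)
    · exact h3
    · have h4 := s1 t₂ ⟨ht₂, h3⟩
      rw [← e1₂, hyc₂] at h4
      exact absurd h4 (h.not_interior _ _)
  have h5 : y.1 = y'.1 := by rw [e1, e1₂, htt]
  have h6 : normal c j r' = normal c j₂ r₂' := h.normal_eq (by rw [← hyc, ← hyc₂, h5])
  refine Prod.ext h5 ?_
  rw [e2, e2₂, h6]

theorem billiardMap_eq (h : IsTable Q ℓ c) {x y : ℂ × ℂ} (h1 : Step Q c x y) :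
    billiardMap Q c x = y := by
  have h2 : ∃ y, Step Q c x y := ⟨y, h1⟩
  unfold billiardMap
  rw [dif_pos h2]
  exact Step.unique h h2.choose_spec h1

theorem derivMap_spec {x : ℂ × ℂ} (h : ∃ A, HasDerivative Q c x A) :
    HasDerivative Q c x (derivMap Q c x) := by
  unfold derivMap
  rw [dif_pos h]
  exact h.choose_spec

end General

/-! ### The annulus -/

/-- the annulus `1 ≤ |z| ≤ 2` -/
def Ann : Set ℂ := {z | 1 ≤ ‖z‖ ∧ ‖z‖ ≤ 2}

/-- lengths of the boundary circles -/
noncomputable def la : Fin 2 → ℝ := ![4 * Real.pi, 2 * Real.pi]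

/-- the boundary circles -/
noncomputable def ca : Fin 2 → ℝ → ℂ :=
  ![fun r => 2 * cexp (((r / 2 : ℝ) : ℂ) * I), fun r => cexp (((-r : ℝ) : ℂ) * I)]

theorem ca0 (r : ℝ) : ca 0 r = 2 * cexp (((r / 2 : ℝ) : ℂ) * I) := rfl

theorem ca1 (r : ℝ) : ca 1 r = cexp (((-r : ℝ) : ℂ) * I) := rfl

theorem hasDeriv0 (r : ℝ) : HasDerivAt (ca 0) (I * cexp (((r / 2 : ℝ) : ℂ) * I)) r := by
  have h1 : HasDerivAt (fun r : ℝ => (r / 2 : ℝ)) (1 / 2) r := (hasDerivAt_id r).div_const 2
  have h2 := ((h1.ofReal_comp.mul_const I).cexp).const_mul 2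
  refine h2.congr_deriv ?_
  push_cast
  ring

theorem hasDeriv1 (r : ℝ) : HasDerivAt (ca 1) (-I * cexp (((-r : ℝ) : ℂ) * I)) r := by
  have h1 : HasDerivAt (fun r : ℝ => (-r : ℝ)) (-1) r := (hasDerivAt_id r).neg
  have h2 := (h1.ofReal_comp.mul_const I).cexp
  refine h2.congr_deriv ?_
  push_cast
  ring

theorem normal0 (r : ℝ) : normal ca 0 r = - cexp (((r / 2 : ℝ) : ℂ) * I) := by
  unfold normal
  rw [(hasDeriv0 r).deriv, ← mul_assoc, I_mul_I]
  ring

theorem normal1 (r : ℝ) : normal ca 1 r = cexp (((-r : ℝ) : ℂ) * I) := by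
  unfold normal
  rw [(hasDeriv1 r).deriv, neg_mul, mul_neg, ← mul_assoc, I_mul_I]
  ring

theorem norm_e (x : ℝ) : ‖cexp ((x : ℂ) * I)‖ = 1 := Complex.norm_exp_ofReal_mul_I x

theorem norm_c0 (r : ℝ) : ‖ca 0 r‖ = 2 := by rw [ca0, norm_mul, norm_e]; simp

theorem norm_c1 (r : ℝ) : ‖ca 1 r‖ = 1 := by rw [ca1, norm_e]

theorem interior_Ann : interior Ann = {z | 1 < ‖z‖ ∧ ‖z‖ < 2} := by
  apply Subset.antisymm
  · intro z hz
    have h1 := interior_subset hz
    have hc : Tendsto (fun s : ℝ => ((s : ℝ) : ℂ) * z) (𝓝 1) (𝓝 z) := by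
      have : Continuous fun s : ℝ => ((s : ℝ) : ℂ) * z := by fun_prop
      simpa using this.tendsto 1
    have h3 : ∀ᶠ s : ℝ in 𝓝 1, ((s : ℝ) : ℂ) * z ∈ Ann :=
      hc.eventually (mem_interior_iff_mem_nhds.1 hz)
    obtain ⟨δ, hδ, hs⟩ := Metric.eventually_nhds_iff.1 h3
    have hz0 : 0 < ‖z‖ := by linarith [h1.1]
    set η := min (δ / 2) (1 / 2) with hη
    have hη0 : 0 < η := lt_min (by linarith) (by norm_num)
    have hηδ : η < δ := (min_le_left _ _).trans_lt (by linarith)
    have hη1 : η ≤ 1 / 2 := min_le_right _ _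
    refine ⟨lt_of_le_of_ne h1.1 fun h4 => ?_, lt_of_le_of_ne h1.2 fun h4 => ?_⟩
    · have h5 := (hs (y := 1 - η) (by
        rw [Real.dist_eq, show 1 - η - 1 = -η by ring, abs_neg, abs_of_pos hη0]; exact hηδ)).1
      rw [norm_mul, ← h4, Complex.norm_real, Real.norm_eq_abs, abs_of_pos (by linarith)] at h5
      linarith
    · have h5 := (hs (y := 1 + η) (by
        rw [Real.dist_eq, add_sub_cancel_left, abs_of_pos hη0]; exact hηδ)).2
      rw [norm_mul, h4, Complex.norm_real, Real.norm_eq_abs, abs_of_pos (by linarith)] at h5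
      linarith
  · refine interior_maximal (fun z hz => ⟨hz.1.le, hz.2.le⟩) ?_
    exact (isOpen_lt continuous_const continuous_norm).inter
      (isOpen_lt continuous_norm continuous_const)

theorem isClosed_Ann : IsClosed Ann :=
  (isClosed_le continuous_const continuous_norm).inter
    (isClosed_le continuous_norm continuous_const)

theorem exists_arg (z : ℂ) {ρ : ℝ} (h : ‖z‖ = ρ) : ∃ θ : ℝ, z = ρ * cexp ((θ : ℂ) * I) :=
  ⟨arg z, by rw [← h]; exact (Complex.norm_mul_exp_arg_mul_I z).symm⟩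

theorem table : IsTable Ann la ca where
  isCompact := by
    refine Metric.isCompact_of_isClosed_isBounded isClosed_Ann
      ((Metric.isBounded_closedBall (x := (0 : ℂ)) (r := 2)).subset fun z hz => ?_)
    rw [mem_closedBall_zero_iff]
    exact hz.2
  isConnected := by
    rw [interior_Ann]
    have h1 : {z : ℂ | 1 < ‖z‖ ∧ ‖z‖ < 2} =
        (fun p : ℝ × ℝ => (p.1 : ℂ) * cexp ((p.2 : ℂ) * I)) '' (Ioo 1 2 ×ˢ univ) := by
      ext z
      constructor
      · rintro ⟨h1, h2⟩
        obtain ⟨θ, hθ⟩ := exists_arg z rfl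
        exact ⟨(‖z‖, θ), ⟨⟨h1, h2⟩, mem_univ _⟩, hθ.symm⟩
      · rintro ⟨p, ⟨⟨h1, h2⟩, -⟩, rfl⟩
        have : ‖(p.1 : ℂ) * cexp ((p.2 : ℂ) * I)‖ = p.1 := by
          rw [norm_mul, norm_e, mul_one, Complex.norm_real, Real.norm_eq_abs,
            abs_of_pos (by linarith)]
        simp only [mem_ofPred_eq]
        rw [this]
        exact ⟨h1, h2⟩
    rw [h1]
    apply IsConnected.image
    · exact (isConnected_Ioo (by norm_num)).prod isConnected_univ
    · fun_prop
  closure_interior := by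
    apply Subset.antisymm
    · exact isClosed_Ann.closure_subset_iff.2 interior_subset
    · intro z hz
      rw [interior_Ann, Metric.mem_closure_iff]
      intro ε hε
      have hz0 : 0 < ‖z‖ := by linarith [hz.1]
      -- move towards the circle of radius 3/2
      set η := min (ε / 4) (1 / 4) with hη
      have hη0 : 0 < η := lt_min (by linarith) (by norm_num)
      have hηε : η ≤ ε / 4 := min_le_left _ _
      have hη1 : η ≤ 1 / 4 := min_le_right _ _
      rcases le_total ‖z‖ (3 / 2) with h | h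
      · refine ⟨((1 + η : ℝ) : ℂ) * z, ⟨?_, ?_⟩, ?_⟩
        · rw [norm_mul, Complex.norm_real, Real.norm_eq_abs, abs_of_pos (by linarith)]
          nlinarith [hz.1]
        · rw [norm_mul, Complex.norm_real, Real.norm_eq_abs, abs_of_pos (by linarith)]
          nlinarith [hz.1]
        · rw [dist_comm, dist_eq_norm]
          have : ((1 + η : ℝ) : ℂ) * z - z = (η : ℂ) * z := by push_cast; ring
          rw [this, norm_mul, Complex.norm_real, Real.norm_eq_abs, abs_of_pos hη0]
          nlinarith [hz.2]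
      · refine ⟨((1 - η : ℝ) : ℂ) * z, ⟨?_, ?_⟩, ?_⟩
        · rw [norm_mul, Complex.norm_real, Real.norm_eq_abs, abs_of_pos (by linarith)]
          nlinarith [hz.1]
        · rw [norm_mul, Complex.norm_real, Real.norm_eq_abs, abs_of_pos (by linarith)]
          nlinarith [hz.2]
        · rw [dist_comm, dist_eq_norm]
          have : ((1 - η : ℝ) : ℂ) * z - z = -((η : ℂ) * z) := by push_cast; ring
          rw [this, norm_neg, norm_mul, Complex.norm_real, Real.norm_eq_abs, abs_of_pos hη0]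
          nlinarith [hz.2]
  length_pos := by
    intro i
    have := Real.pi_pos
    fin_cases i <;> simp [la, this]
  smooth := by
    intro i
    fin_cases i
    · show ContDiff ℝ ∞ (fun r : ℝ => 2 * cexp (((r / 2 : ℝ) : ℂ) * I))
      have h1 : ContDiff ℝ ∞ (fun r : ℝ => ((r / 2 : ℝ) : ℂ)) :=
        Complex.ofRealCLM.contDiff.comp (contDiff_id.div_const 2)
      exact contDiff_const.mul (h1.mul contDiff_const).cexp
    · show ContDiff ℝ ∞ (fun r : ℝ => cexp (((-r : ℝ) : ℂ) * I))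
      have h1 : ContDiff ℝ ∞ (fun r : ℝ => ((-r : ℝ) : ℂ)) :=
        Complex.ofRealCLM.contDiff.comp contDiff_neg
      exact (h1.mul contDiff_const).cexp
  unit_speed := by
    intro i r
    fin_cases i
    · show ‖deriv (ca 0) r‖ = 1
      rw [(hasDeriv0 r).deriv, norm_mul, norm_e]; simp
    · show ‖deriv (ca 1) r‖ = 1
      rw [(hasDeriv1 r).deriv, norm_mul, norm_e]; simp
  simple := by
    have hexp : ∀ a b : ℝ, cexp ((a : ℂ) * I) = cexp ((b : ℂ) * I) ↔
        ∃ k : ℤ, b = a + k * (2 * Real.pi) := by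
      intro a b
      rw [Complex.exp_eq_exp_iff_exists_int]
      constructor
      · rintro ⟨n, hn⟩
        refine ⟨-n, ?_⟩
        have h1 : (a : ℂ) = b + n * (2 * Real.pi) := by
          apply mul_right_cancel₀ I_ne_zero
          rw [hn]; ring
        have h2 : a = b + n * (2 * Real.pi) := by exact_mod_cast h1
        push_cast
        linarith
      · rintro ⟨k, rfl⟩
        refine ⟨-k, ?_⟩
        push_cast
        ring
    intro i j r s
    fin_cases i <;> fin_cases j
    · show ca 0 r = ca 0 s ↔ (0 : Fin 2) = 0 ∧ ∃ k : ℤ, s = r + k * (4 * Real.pi)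
      rw [ca0, ca0]
      have h2 : (2 : ℂ) ≠ 0 := two_ne_zero
      rw [mul_right_inj' h2, hexp]
      simp only [true_and]
      constructor
      · rintro ⟨k, hk⟩
        exact ⟨k, by linarith⟩
      · rintro ⟨k, rfl⟩
        exact ⟨k, by ring⟩
    · show ca 0 r = ca 1 s ↔ (0 : Fin 2) = 1 ∧ ∃ k : ℤ, s = r + k * (4 * Real.pi)
      constructor
      · intro h
        have := congrArg norm h
        rw [norm_c0, norm_c1] at this
        norm_num at this
      · rintro ⟨h, -⟩
        exact absurd h (by decide)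
    · show ca 1 r = ca 0 s ↔ (1 : Fin 2) = 0 ∧ ∃ k : ℤ, s = r + k * (2 * Real.pi)
      constructor
      · intro h
        have := congrArg norm h
        rw [norm_c0, norm_c1] at this
        norm_num at this
      · rintro ⟨h, -⟩
        exact absurd h (by decide)
    · show ca 1 r = ca 1 s ↔ (1 : Fin 2) = 1 ∧ ∃ k : ℤ, s = r + k * (2 * Real.pi)
      rw [ca1, ca1, hexp]
      simp only [true_and]
      constructor
      · rintro ⟨k, hk⟩
        exact ⟨-k, by push_cast; linarith⟩
      · rintro ⟨k, rfl⟩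
        exact ⟨-k, by push_cast; ring⟩
  boundary := by
    rw [isClosed_Ann.frontier_eq, interior_Ann]
    ext z
    simp only [mem_iUnion, mem_range]
    constructor
    · rintro ⟨⟨h1, h2⟩, h3⟩
      have h4 : ‖z‖ = 1 ∨ ‖z‖ = 2 := by
        by_contra hcon
        push Not at hcon
        exact h3 ⟨lt_of_le_of_ne h1 (Ne.symm hcon.1), lt_of_le_of_ne h2 hcon.2⟩
      rcases h4 with h4 | h4
      · obtain ⟨θ, hθ⟩ := exists_arg z h4
        refine ⟨1, -θ, ?_⟩
        rw [ca1, neg_neg, hθ]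
        simp
      · obtain ⟨θ, hθ⟩ := exists_arg z h4
        refine ⟨0, 2 * θ, ?_⟩
        rw [ca0, hθ, show 2 * θ / 2 = θ by ring]
        simp
    · rintro ⟨i, r, rfl⟩
      fin_cases i
      · show ca 0 r ∈ Ann \ {z | 1 < ‖z‖ ∧ ‖z‖ < 2}
        refine ⟨⟨?_, ?_⟩, fun h => ?_⟩
        · rw [norm_c0]; norm_num
        · rw [norm_c0]
        · have := h.2
          rw [norm_c0] at this
          exact lt_irrefl _ this
      · show ca 1 r ∈ Ann \ {z | 1 < ‖z‖ ∧ ‖z‖ < 2}
        refine ⟨⟨?_, ?_⟩, fun h => ?_⟩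
        · rw [norm_c1]
        · rw [norm_c1]; norm_num
        · have := h.1
          rw [norm_c1] at this
          exact lt_irrefl _ this
  left := by
    intro i r
    have h1 : ∀ᶠ ε : ℝ in 𝓝[>] (0 : ℝ), ε ∈ Ioo (0 : ℝ) (1 / 2) :=
      Ioo_mem_nhdsGT (by norm_num)
    filter_upwards [h1] with ε hε
    rw [interior_Ann]
    fin_cases i
    · show ca 0 r + ε * normal ca 0 r ∈ _
      have e : ca 0 r + ε * normal ca 0 r =
          ((2 - ε : ℝ) : ℂ) * cexp (((r / 2 : ℝ) : ℂ) * I) := by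
        rw [ca0, normal0]; push_cast; ring
      have hn : ‖ca 0 r + ε * normal ca 0 r‖ = 2 - ε := by
        rw [e, norm_mul, norm_e, mul_one, Complex.norm_real, Real.norm_eq_abs,
          abs_of_pos (by linarith [hε.2])]
      simp only [mem_ofPred_eq]
      rw [hn]
      exact ⟨by linarith [hε.2], by linarith [hε.1]⟩
    · show ca 1 r + ε * normal ca 1 r ∈ _
      have e : ca 1 r + ε * normal ca 1 r =
          ((1 + ε : ℝ) : ℂ) * cexp (((-r : ℝ) : ℂ) * I) := by
        rw [ca1, normal1]; push_cast; ring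
      have hn : ‖ca 1 r + ε * normal ca 1 r‖ = 1 + ε := by
        rw [e, norm_mul, norm_e, mul_one, Complex.norm_real, Real.norm_eq_abs,
          abs_of_pos (by linarith [hε.1])]
      simp only [mem_ofPred_eq]
      rw [hn]
      exact ⟨by linarith [hε.1], by linarith [hε.2]⟩

end Pool.Agent.Y294.AN
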