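import Mathlib

/-!
# Billiard maps of smooth plane tables, their derivatives and invariant measures (MP_94eb8e_an)
-/

set_option autoImplicit false

namespace Pool.Agent.Y294.AN

open Complex Set Filter Topology MeasureTheory
open scoped ContDiff ComplexConjugate

/-- A billiard table without corners: `Q` is a compact domain of the plane whose boundary is the
disjoint union of the simple closed `C^∞` curves `c i`, which are parametrised by arc length with
period `ℓ i` and have `Q` on their left. -/
structure IsTable {N : ℕ} (Q : Set ℂ) (ℓ : Fin N → ℝ) (c : Fin N → ℝ → ℂ) : Prop where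
  isCompact : IsCompact Q
  isConnected : IsConnected (interior Q)
  closure_interior : closure (interior Q) = Q
  length_pos : ∀ i, 0 < ℓ i
  smooth : ∀ i, ContDiff ℝ ∞ (c i)
  unit_speed : ∀ i r, ‖deriv (c i) r‖ = 1
  simple : ∀ i j r s, c i r = c j s ↔ i = j ∧ ∃ k : ℤ, s = r + k * ℓ i
  boundary : frontier Q = ⋃ i, range (c i)
  left : ∀ i r, ∀ᶠ ε : ℝ in 𝓝[>] 0, c i r + ε * (I * deriv (c i) r) ∈ interior Q

variable {N : ℕ}

/-- The inward unit normal of the table at the boundary point `c i r`. -/
noncomputable def normal (c : Fin N → ℝ → ℂ) (i : Fin N) (r : ℝ) : ℂ := I * deriv (c i) r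

/-- The phase point with coordinates `(r, φ)` on the `i`-th boundary curve: the boundary point
`q = c i r` together with the unit vector `v` which makes the angle `φ` with the inward normal. -/
noncomputable def state (c : Fin N → ℝ → ℂ) (i : Fin N) (r φ : ℝ) : ℂ × ℂ :=
  (c i r, normal c i r * cexp (φ * I))

/-- One step of the billiard, without tangential collisions: the particle leaves the boundary point
`x.1` with the velocity `x.2`, moves in the interior of `Q`, hits the boundary at `y.1`, and `y.2` is
the velocity reflected there. -/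
def Step (Q : Set ℂ) (c : Fin N → ℝ → ℂ) (x y : ℂ × ℂ) : Prop :=
  ∃ (i j : Fin N) (r r' φ φ' t : ℝ), |φ| < Real.pi / 2 ∧ |φ'| < Real.pi / 2 ∧ 0 < t ∧
    x = state c i r φ ∧ y = state c j r' φ' ∧ y.1 = x.1 + t * x.2 ∧
    (∀ s ∈ Ioo 0 t, x.1 + s * x.2 ∈ interior Q) ∧
    y.2 = x.2 - 2 * (conj (normal c j r') * x.2).re * normal c j r'

open Classical in
/-- The billiard map (the value at points with a tangential collision is irrelevant). -/
noncomputable def billiardMap (Q : Set ℂ) (c : Fin N → ℝ → ℂ) (x : ℂ × ℂ) : ℂ × ℂ :=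
  if h : ∃ y, Step Q c x y then h.choose else x

/-- `A` is the derivative of the billiard map at `x` in the coordinates `(r, φ)`. -/
def HasDerivative (Q : Set ℂ) (c : Fin N → ℝ → ℂ) (x : ℂ × ℂ) (A : ℝ × ℝ →L[ℝ] ℝ × ℝ) : Prop :=
  ∃ (i j : Fin N) (r φ : ℝ) (F : ℝ × ℝ → ℝ × ℝ), |φ| < Real.pi / 2 ∧ x = state c i r φ ∧
    HasFDerivAt F A (r, φ) ∧
    ∀ᶠ z in 𝓝 (r, φ), |(F z).2| < Real.pi / 2 ∧
      Step Q c (state c i z.1 z.2) (state c j (F z).1 (F z).2)

open Classical in
/-- The derivative `D_x T` of the billiard map in the coordinates `(r, φ)` (`0` where the map has no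
derivative). -/
noncomputable def derivMap (Q : Set ℂ) (c : Fin N → ℝ → ℂ) (x : ℂ × ℂ) : ℝ × ℝ →L[ℝ] ℝ × ℝ :=
  if h : ∃ A, HasDerivative Q c x A then h.choose else 0

/-- The natural invariant measure `cos φ dr dφ` (not normalised). -/
noncomputable def liouville (ℓ : Fin N → ℝ) (c : Fin N → ℝ → ℂ) : Measure (ℂ × ℂ) :=
  ∑ i, Measure.map (fun z : ℝ × ℝ => state c i z.1 z.2)
    ((volume.restrict (Ioc 0 (ℓ i) ×ˢ Ioo (-(Real.pi / 2)) (Real.pi / 2))).withDensity
      fun z => ENNReal.ofReal (Real.cos z.2))

/-- `μ` is an invariant probability measure of the billiard map: a Borel probability measure which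
is mapped to itself and gives full mass to the points whose entire (two-sided) orbit has no
tangential collision. -/
structure IsInvariant (Q : Set ℂ) (c : Fin N → ℝ → ℂ) (μ : Measure (ℂ × ℂ)) : Prop where
  prob : IsProbabilityMeasure μ
  regular : ∀ᵐ x ∂μ, ∃ z : ℤ → ℂ × ℂ, z 0 = x ∧ ∀ k, Step Q c (z k) (z (k + 1))
  invariant : μ.map (billiardMap Q c) = μ

end Pool.Agent.Y294.AN
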