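import Pool.Agent.Y294.AN.Basic

/-!
# The billiard of the annulus on the trajectories that meet the inner circle
-/

set_option autoImplicit false

namespace Pool.Agent.Y294.AN

open Complex Set Filter Topology MeasureTheory
open scoped ContDiff ComplexConjugate

/-- angle at the outer circle of a trajectory with angle `ψ` at the inner circle -/
noncomputable def bt (ψ : ℝ) : ℝ := Real.arcsin (Real.sin ψ / 2)

/-- polar angle between consecutive collisions -/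
noncomputable def dl (ψ : ℝ) : ℝ := ψ - bt ψ

theorem sin_bt (ψ : ℝ) : Real.sin (bt ψ) = Real.sin ψ / 2 :=
  Real.sin_arcsin (by linarith [Real.neg_one_le_sin ψ]) (by linarith [Real.sin_le_one ψ])

theorem abs_bt (ψ : ℝ) : |bt ψ| < Real.pi / 2 := by
  rw [abs_lt]
  constructor
  · exact Real.neg_pi_div_two_lt_arcsin.2 (by linarith [Real.neg_one_le_sin ψ])
  · exact Real.arcsin_lt_pi_div_two.2 (by linarith [Real.sin_le_one ψ])

theorem cos_bt_pos (ψ : ℝ) : 0 < Real.cos (bt ψ) := by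
  have := abs_lt.1 (abs_bt ψ)
  exact Real.cos_pos_of_mem_Ioo ⟨this.1, this.2⟩

theorem cos_bt_sq (ψ : ℝ) : 4 * Real.cos (bt ψ) ^ 2 = 3 + Real.cos ψ ^ 2 := by
  have h1 := Real.sin_sq_add_cos_sq (bt ψ)
  have h2 := Real.sin_sq_add_cos_sq ψ
  rw [sin_bt] at h1
  nlinarith

theorem cos_lt (ψ : ℝ) : Real.cos ψ < 2 * Real.cos (bt ψ) := by
  nlinarith [cos_bt_sq ψ, cos_bt_pos ψ]

/-- the exponential of an imaginary number -/
noncomputable def ex (x : ℝ) : ℂ := cexp ((x : ℂ) * I)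

theorem ex_add (x y : ℝ) : ex (x + y) = ex x * ex y := by
  unfold ex; rw [← Complex.exp_add]; congr 1; push_cast; ring

theorem ex_sub (x y : ℝ) : ex (x - y) = ex x * ex (-y) := by
  rw [sub_eq_add_neg, ex_add]

theorem ex_neg (x : ℝ) : ex x * ex (-x) = 1 := by
  rw [← ex_add, add_neg_cancel]; simp [ex]

theorem norm_ex (x : ℝ) : ‖ex x‖ = 1 := norm_e x

theorem conj_ex (x : ℝ) : conj (ex x) = ex (-x) := by
  unfold ex
  rw [← Complex.exp_conj]
  simp

theorem ex_re (x : ℝ) : (ex x).re = Real.cos x := by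
  unfold ex; exact Complex.exp_ofReal_mul_I_re x

theorem ex_im (x : ℝ) : (ex x).im = Real.sin x := by
  unfold ex; exact Complex.exp_ofReal_mul_I_im x

theorem two_cos (x : ℝ) : ((2 * Real.cos x : ℝ) : ℂ) = ex x + ex (-x) := by
  apply Complex.ext
  · simp [ex_re, Complex.cos_ofReal_re]; ring
  · simp [ex_im]

/-- flight length -/
noncomputable def tm (ψ : ℝ) : ℝ := 2 * Real.cos (bt ψ) - Real.cos ψ

theorem tm_pos (ψ : ℝ) : 0 < tm ψ := by unfold tm; linarith [cos_lt ψ]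

theorem tm_eq (ψ : ℝ) : (tm ψ : ℂ) = 2 * ex (bt ψ) - ex ψ := by
  apply Complex.ext
  · simp [tm, ex_re, Complex.cos_ofReal_re]
  · simp [ex_im, sin_bt]; ring

theorem tm_eq' (ψ : ℝ) : (tm ψ : ℂ) = 2 * ex (-bt ψ) - ex (-ψ) := by
  apply Complex.ext
  · simp [tm, ex_re, Complex.cos_ofReal_re]
  · simp [ex_im, sin_bt]; ring

/-- state at the outer circle -/
noncomputable def X0 (a ψ : ℝ) : ℂ × ℂ := (2 * ex a, -(ex a * ex (-bt ψ)))

/-- state at the inner circle -/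
noncomputable def X1 (a ψ : ℝ) : ℂ × ℂ := (ex a, ex a * ex ψ)

theorem X0_state (a ψ : ℝ) : X0 a ψ = state ca 0 (2 * a) (-bt ψ) := by
  unfold X0 state
  rw [ca0, normal0, show 2 * a / 2 = a by ring]
  simp only [ex, neg_mul]

theorem X1_state (a ψ : ℝ) : X1 a ψ = state ca 1 (-a) ψ := by
  unfold X1 state
  rw [ca1, normal1, neg_neg]
  simp only [ex]

theorem normSq_eq (z : ℂ) : ‖z‖ ^ 2 = z.re ^ 2 + z.im ^ 2 := by
  rw [Complex.sq_norm, Complex.normSq_apply]; ring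

theorem step01 (a ψ : ℝ) (hψ : |ψ| < Real.pi / 2) :
    Step Ann ca (X0 a ψ) (X1 (a + dl ψ) ψ) := by
  have hψ' := abs_lt.1 hψ
  have hcp : 0 < Real.cos ψ := Real.cos_pos_of_mem_Ioo ⟨hψ'.1, hψ'.2⟩
  refine ⟨0, 1, 2 * a, -(a + dl ψ), -bt ψ, ψ, tm ψ, by rw [abs_neg]; exact abs_bt ψ, hψ, tm_pos ψ,
    X0_state a ψ, X1_state _ ψ, ?_, ?_, ?_⟩
  · show ex (a + dl ψ) = 2 * ex a + tm ψ * -(ex a * ex (-bt ψ))
    rw [ex_add, dl, ex_sub, tm_eq]
    have h1 := ex_neg (bt ψ)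
    linear_combination (2 * ex a) * h1
  · intro s hs
    show 2 * ex a + s * -(ex a * ex (-bt ψ)) ∈ interior Ann
    rw [interior_Ann]
    have e1 : 2 * ex a + s * -(ex a * ex (-bt ψ)) = ex a * (2 - s * ex (-bt ψ)) := by ring
    have e2 : ‖2 * ex a + s * -(ex a * ex (-bt ψ))‖ ^ 2 = 4 - 4 * s * Real.cos (bt ψ) + s ^ 2 := by
      rw [e1, norm_mul, norm_ex, one_mul, normSq_eq]
      simp only [Complex.sub_re, Complex.sub_im, Complex.mul_re, Complex.mul_im, Complex.ofReal_re,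
        Complex.ofReal_im, ex_re, ex_im, Complex.re_ofNat, Complex.im_ofNat, Real.cos_neg,
        Real.sin_neg]
      nlinarith [Real.sin_sq_add_cos_sq (bt ψ)]
    have h3 := cos_bt_sq ψ
    have h4 := cos_bt_pos ψ
    have hs1 := hs.1
    have hs2 := hs.2
    unfold tm at hs2
    set w := ‖2 * ex a + s * -(ex a * ex (-bt ψ))‖ with hw
    have hw0 : 0 ≤ w := norm_nonneg _
    have h5 : 1 < w ^ 2 := by
      rw [e2]
      nlinarith [mul_pos (show 0 < 2 * Real.cos (bt ψ) - Real.cos ψ - s by linarith)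
        (show 0 < 2 * Real.cos (bt ψ) + Real.cos ψ - s by linarith)]
    have h6 : w ^ 2 < 4 := by
      rw [e2]
      nlinarith [mul_pos hs1 (show 0 < 4 * Real.cos (bt ψ) - s by linarith)]
    constructor
    · nlinarith
    · nlinarith
  · show ex (a + dl ψ) * ex ψ = -(ex a * ex (-bt ψ)) -
      2 * (conj (normal ca 1 (-(a + dl ψ))) * -(ex a * ex (-bt ψ))).re * normal ca 1 (-(a + dl ψ))
    have hn : normal ca 1 (-(a + dl ψ)) = ex (a + dl ψ) := by rw [normal1, neg_neg]; rfl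
    have hr : conj (normal ca 1 (-(a + dl ψ))) * -(ex a * ex (-bt ψ)) = -ex (-ψ) := by
      rw [hn, conj_ex, show -(a + dl ψ) = -a + (-ψ + bt ψ) by unfold dl; ring, ex_add, ex_add]
      have h1 := ex_neg (bt ψ)
      have h2 := ex_neg a
      linear_combination (-(ex (-ψ)) * ex a * ex (-a)) * h1 - ex (-ψ) * h2
    rw [hr, hn, Complex.neg_re, ex_re, Real.cos_neg]
    have h3 : (2 : ℂ) * ((-Real.cos ψ : ℝ) : ℂ) = -(ex ψ + ex (-ψ)) := by
      rw [← two_cos]; push_cast; ring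
    rw [h3, ex_add, dl, ex_sub]
    have h4 := ex_neg ψ
    linear_combination (-(ex a) * ex (-bt ψ)) * h4

theorem step10 (a ψ : ℝ) (hψ : |ψ| < Real.pi / 2) :
    Step Ann ca (X1 a ψ) (X0 (a + dl ψ) ψ) := by
  have hψ' := abs_lt.1 hψ
  have hcp : 0 < Real.cos ψ := Real.cos_pos_of_mem_Ioo ⟨hψ'.1, hψ'.2⟩
  refine ⟨1, 0, -a, 2 * (a + dl ψ), ψ, -bt ψ, tm ψ, hψ, by rw [abs_neg]; exact abs_bt ψ, tm_pos ψ,
    X1_state a ψ, X0_state _ ψ, ?_, ?_, ?_⟩
  · show 2 * ex (a + dl ψ) = ex a + tm ψ * (ex a * ex ψ)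
    rw [ex_add, dl, ex_sub, tm_eq']
    have h1 := ex_neg ψ
    linear_combination (ex a) * h1
  · intro s hs
    show ex a + s * (ex a * ex ψ) ∈ interior Ann
    rw [interior_Ann]
    have e1 : ex a + s * (ex a * ex ψ) = ex a * (1 + s * ex ψ) := by ring
    have e2 : ‖ex a + s * (ex a * ex ψ)‖ ^ 2 = 1 + 2 * s * Real.cos ψ + s ^ 2 := by
      rw [e1, norm_mul, norm_ex, one_mul, normSq_eq]
      simp only [Complex.add_re, Complex.add_im, Complex.mul_re, Complex.mul_im, Complex.ofReal_re,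
        Complex.ofReal_im, ex_re, ex_im, Complex.one_re, Complex.one_im]
      nlinarith [Real.sin_sq_add_cos_sq ψ]
    have h3 := cos_bt_sq ψ
    have h4 := cos_bt_pos ψ
    have hs1 := hs.1
    have hs2 := hs.2
    unfold tm at hs2
    set w := ‖ex a + s * (ex a * ex ψ)‖ with hw
    have hw0 : 0 ≤ w := norm_nonneg _
    have h5 : 1 < w ^ 2 := by
      rw [e2]
      nlinarith [mul_pos hs1 hcp, mul_pos hs1 hs1]
    have h6 : w ^ 2 < 4 := by
      rw [e2]
      nlinarith [mul_pos (show 0 < 2 * Real.cos (bt ψ) - Real.cos ψ - s by linarith)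
        (show 0 < 2 * Real.cos (bt ψ) + Real.cos ψ + s by linarith)]
    constructor
    · nlinarith
    · nlinarith
  · show -(ex (a + dl ψ) * ex (-bt ψ)) = ex a * ex ψ -
      2 * (conj (normal ca 0 (2 * (a + dl ψ))) * (ex a * ex ψ)).re * normal ca 0 (2 * (a + dl ψ))
    have hn : normal ca 0 (2 * (a + dl ψ)) = -ex (a + dl ψ) := by
      rw [normal0, show 2 * (a + dl ψ) / 2 = a + dl ψ by ring]; rfl
    have hr : conj (normal ca 0 (2 * (a + dl ψ))) * (ex a * ex ψ) = -ex (bt ψ) := by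
      rw [hn, map_neg, conj_ex, show -(a + dl ψ) = -a + (-ψ + bt ψ) by unfold dl; ring, ex_add,
        ex_add]
      have h1 := ex_neg ψ
      have h2 := ex_neg a
      linear_combination (-(ex (bt ψ)) * ex a * ex (-a)) * h1 - ex (bt ψ) * h2
    rw [hr, hn, Complex.neg_re, ex_re]
    have h3 : (2 : ℂ) * ((-Real.cos (bt ψ) : ℝ) : ℂ) = -(ex (bt ψ) + ex (-bt ψ)) := by
      rw [← two_cos]; push_cast; ring
    rw [h3, ex_add, dl, ex_sub]
    have h4 := ex_neg (bt ψ)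
    linear_combination (ex a * ex ψ) * h4

/-- the full orbit -/
noncomputable def orb (a ψ : ℝ) (k : ℤ) : ℂ × ℂ :=
  if Even k then X0 (a + k * dl ψ) ψ else X1 (a + k * dl ψ) ψ

theorem orb_step (a ψ : ℝ) (hψ : |ψ| < Real.pi / 2) (k : ℤ) :
    Step Ann ca (orb a ψ k) (orb a ψ (k + 1)) := by
  unfold orb
  by_cases h : Even k
  · have h1 : ¬ Even (k + 1) := by rw [Int.even_add_one]; exact not_not.2 h
    rw [if_pos h, if_neg h1]
    have e : a + ((k + 1 : ℤ) : ℝ) * dl ψ = a + k * dl ψ + dl ψ := by push_cast; ring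
    rw [e]
    exact step01 _ ψ hψ
  · have h1 : Even (k + 1) := by rw [Int.even_add_one]; exact h
    rw [if_neg h, if_pos h1]
    have e : a + ((k + 1 : ℤ) : ℝ) * dl ψ = a + k * dl ψ + dl ψ := by push_cast; ring
    rw [e]
    exact step10 _ ψ hψ

theorem orb_zero (a ψ : ℝ) : orb a ψ 0 = X0 a ψ := by simp [orb]

/-- the orbit of an inner state -/
theorem orb_one (a ψ : ℝ) : orb (a - dl ψ) ψ 1 = X1 a ψ := by
  simp [orb]

theorem iter_orb (a ψ : ℝ) (hψ : |ψ| < Real.pi / 2) (k : ℤ) (n : ℕ) :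
    (billiardMap Ann ca)^[n] (orb a ψ k) = orb a ψ (k + n) := by
  induction n with
  | zero => simp
  | succ n ih =>
    rw [Function.iterate_succ_apply', ih, billiardMap_eq table (orb_step a ψ hψ _)]
    congr 1
    push_cast
    ring

theorem norm_orb_even (a ψ : ℝ) {k : ℤ} (h : Even k) : (orb a ψ k).1 = 2 * ex (a + k * dl ψ) := by
  unfold orb; rw [if_pos h]; rfl

theorem norm_orb_odd (a ψ : ℝ) {k : ℤ} (h : ¬ Even k) : (orb a ψ k).1 = ex (a + k * dl ψ) := by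
  unfold orb; rw [if_neg h]; rfl

theorem ex_eq_iff (a b : ℝ) : ex a = ex b ↔ ∃ k : ℤ, b = a + k * (2 * Real.pi) := by
  unfold ex
  rw [Complex.exp_eq_exp_iff_exists_int]
  constructor
  · rintro ⟨n, hn⟩
    refine ⟨-n, ?_⟩
    have h1 : (a : ℂ) = b + n * (2 * Real.pi) := by
      apply mul_right_cancel₀ I_ne_zero
      rw [hn]; ring
    have h2 : a = b + n * (2 * Real.pi) := by exact_mod_cast h1
    push_cast
    linarith
  · rintro ⟨k, rfl⟩
    refine ⟨-k, ?_⟩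
    push_cast
    ring

/-- no periodic points if `dl ψ` is not a rational multiple of `π` -/
theorem not_periodic (a ψ : ℝ) (hψ : |ψ| < Real.pi / 2) (hq : ∀ q : ℚ, dl ψ ≠ q * Real.pi)
    (k : ℤ) (n : ℕ) (hn : 1 ≤ n) : (billiardMap Ann ca)^[n] (orb a ψ k) ≠ orb a ψ k := by
  rw [iter_orb a ψ hψ]
  intro h
  have h1 := congrArg Prod.fst h
  have hpar : (Even (k + n) ↔ Even k) := by
    by_contra hcon
    have h2 := congrArg norm h1
    by_cases hk : Even k
    · have hk' : ¬ Even (k + n) := fun h' => hcon ⟨fun _ => hk, fun _ => h'⟩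
      rw [norm_orb_odd _ _ hk', norm_orb_even _ _ hk, norm_mul, norm_ex, norm_ex] at h2
      norm_num at h2
    · have hk' : Even (k + n) := by
        by_contra h'
        exact hcon ⟨fun h'' => absurd h'' h', fun h'' => absurd h'' hk⟩
      rw [norm_orb_even _ _ hk', norm_orb_odd _ _ hk, norm_mul, norm_ex, norm_ex] at h2
      norm_num at h2
  have h3 : ex (a + ((k + n : ℤ) : ℝ) * dl ψ) = ex (a + k * dl ψ) := by
    by_cases hk : Even k
    · rw [norm_orb_even _ _ (hpar.2 hk), norm_orb_even _ _ hk] at h1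
      exact mul_left_cancel₀ two_ne_zero h1
    · rw [norm_orb_odd _ _ (fun h' => hk (hpar.1 h')), norm_orb_odd _ _ hk] at h1
      exact h1
  rw [ex_eq_iff] at h3
  obtain ⟨m, hm⟩ := h3
  apply hq (-(2 * m / n : ℚ))
  have hn' : (n : ℝ) ≠ 0 := by positivity
  push_cast at hm ⊢
  have : (n : ℝ) * dl ψ = -(m * (2 * Real.pi)) := by linarith
  field_simp
  linarith

/-- angles with the same exponential -/
theorem ex_inj {x y : ℝ} (hx : |x| < Real.pi / 2) (hy : |y| < Real.pi / 2) (h : ex x = ex y) :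
    x = y := by
  have h1 : Real.sin x = Real.sin y := by rw [← ex_im, ← ex_im, h]
  have hx' := abs_lt.1 hx
  have hy' := abs_lt.1 hy
  exact Real.injOn_sin ⟨hx'.1.le, hx'.2.le⟩ ⟨hy'.1.le, hy'.2.le⟩ h1

/-- the map in coordinates -/
noncomputable def Fm (z : ℝ × ℝ) : ℝ × ℝ :=
  (-(z.1 / 2 + Real.arcsin (-2 * Real.sin z.2) + z.2), Real.arcsin (-2 * Real.sin z.2))

theorem step_coord (r φ : ℝ) (hφ : |φ| < Real.pi / 2) (h : |2 * Real.sin φ| < 1) :
    |(Fm (r, φ)).2| < Real.pi / 2 ∧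
      Step Ann ca (state ca 0 r φ) (state ca 1 (Fm (r, φ)).1 (Fm (r, φ)).2) := by
  have h' := abs_lt.1 h
  have hφ' := abs_lt.1 hφ
  set ψ := Real.arcsin (-2 * Real.sin φ) with hψ
  have hs : Real.sin ψ = -2 * Real.sin φ := Real.sin_arcsin (by linarith) (by linarith)
  have hψa : |ψ| < Real.pi / 2 := by
    rw [abs_lt]
    exact ⟨Real.neg_pi_div_two_lt_arcsin.2 (by linarith), Real.arcsin_lt_pi_div_two.2 (by linarith)⟩
  have hb : bt ψ = -φ := by
    unfold bt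
    rw [hs, show -2 * Real.sin φ / 2 = -Real.sin φ by ring, Real.arcsin_neg,
      Real.arcsin_sin hφ'.1.le hφ'.2.le]
  refine ⟨hψa, ?_⟩
  have h1 := step01 (r / 2) ψ hψa
  rw [X0_state, X1_state, hb, neg_neg, show 2 * (r / 2) = r by ring] at h1
  have e : -(r / 2 + dl ψ) = (Fm (r, φ)).1 := by
    simp only [Fm, dl, hb]
    ring
  rw [e] at h1
  exact h1

theorem hasDeriv_arcsin {φ : ℝ} (h : |2 * Real.sin φ| < 1) :
    HasDerivAt (fun x => Real.arcsin (-2 * Real.sin x))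
      (-2 * Real.cos φ / √(1 - (-2 * Real.sin φ) ^ 2)) φ := by
  have h' := abs_lt.1 h
  have h1 : HasDerivAt (fun x => -2 * Real.sin x) (-2 * Real.cos φ) φ :=
    (Real.hasDerivAt_sin φ).const_mul (-2)
  have h2 := (Real.hasDerivAt_arcsin (x := -2 * Real.sin φ) (by linarith) (by linarith)).comp φ h1
  refine h2.congr_deriv ?_
  field_simp

theorem abs_two_sin_bt {ψ : ℝ} (hψ : |ψ| < Real.pi / 2) : |2 * Real.sin (-bt ψ)| < 1 := by
  have hψ' := abs_lt.1 hψ
  have hcp : 0 < Real.cos ψ := Real.cos_pos_of_mem_Ioo ⟨hψ'.1, hψ'.2⟩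
  have h1 := Real.sin_sq_add_cos_sq ψ
  rw [Real.sin_neg, sin_bt, show 2 * -(Real.sin ψ / 2) = -Real.sin ψ by ring, abs_neg, abs_lt]
  constructor <;> nlinarith

theorem hasDerivative (a ψ : ℝ) (hψ : |ψ| < Real.pi / 2) :
    ∃ A, HasDerivative Ann ca (X0 a ψ) A := by
  have h0 := abs_two_sin_bt hψ
  have hb : |(-bt ψ)| < Real.pi / 2 := by rw [abs_neg]; exact abs_bt ψ
  have hd : DifferentiableAt ℝ Fm (2 * a, -bt ψ) := by
    have h1 : DifferentiableAt ℝ (fun z : ℝ × ℝ => Real.arcsin (-2 * Real.sin z.2))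
        (2 * a, -bt ψ) := by
      have h2 := (hasDeriv_arcsin h0).differentiableAt
      exact DifferentiableAt.comp (𝕜 := ℝ) (f := fun z : ℝ × ℝ => z.2)
        (g := fun x => Real.arcsin (-2 * Real.sin x)) (2 * a, -bt ψ) h2 differentiableAt_snd
    have h3 : DifferentiableAt ℝ (fun z : ℝ × ℝ => z.1 / 2) (2 * a, -bt ψ) := by fun_prop
    have h4 : DifferentiableAt ℝ (fun z : ℝ × ℝ => z.2) (2 * a, -bt ψ) := by fun_prop
    exact ((h3.add h1).add h4).neg.prodMk h1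
  refine ⟨_, 0, 1, 2 * a, -bt ψ, Fm, hb, X0_state a ψ, hd.hasFDerivAt, ?_⟩
  have e1 : ∀ᶠ z : ℝ × ℝ in 𝓝 (2 * a, -bt ψ), |z.2| < Real.pi / 2 := by
    have hc : ContinuousAt (fun z : ℝ × ℝ => |z.2|) (2 * a, -bt ψ) := by fun_prop
    exact hc.eventually (gt_mem_nhds hb)
  have e2 : ∀ᶠ z : ℝ × ℝ in 𝓝 (2 * a, -bt ψ), |2 * Real.sin z.2| < 1 := by
    have hc : ContinuousAt (fun z : ℝ × ℝ => |2 * Real.sin z.2|) (2 * a, -bt ψ) := by fun_prop
    exact hc.eventually (gt_mem_nhds h0)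
  filter_upwards [e1, e2] with z h1 h2
  exact step_coord z.1 z.2 h1 h2

/-- lower bound of the norm of the derivative -/
theorem norm_ge (a ψ : ℝ) (hψ : |ψ| < Real.pi / 2) {A : ℝ × ℝ →L[ℝ] ℝ × ℝ}
    (hA : HasDerivative Ann ca (X0 a ψ) A) : 1 / Real.cos ψ ≤ ‖A‖ := by
  obtain ⟨i, j, r, φ, F, hφ, hx, hF, hst⟩ := hA
  have hψ' := abs_lt.1 hψ
  have hcp : 0 < Real.cos ψ := Real.cos_pos_of_mem_Ioo ⟨hψ'.1, hψ'.2⟩
  rw [X0_state] at hx
  have hx1 : ca 0 (2 * a) = ca i r := congrArg Prod.fst hx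
  obtain ⟨hi, -⟩ := (table.simple 0 i (2 * a) r).1 hx1
  subst hi
  have hx2 : normal ca 0 (2 * a) * ex (-bt ψ) = normal ca 0 r * ex φ := congrArg Prod.snd hx
  rw [table.normal_eq hx1] at hx2
  have hn0 : normal ca 0 r ≠ 0 := by
    rw [normal0, neg_ne_zero]
    exact Complex.exp_ne_zero _
  have hφb : -bt ψ = φ := ex_inj (by rw [abs_neg]; exact abs_bt ψ) hφ (mul_left_cancel₀ hn0 hx2)
  have h0 := abs_two_sin_bt hψ
  rw [hφb] at h0
  have e1 : ∀ᶠ z : ℝ × ℝ in 𝓝 (r, φ), |z.2| < Real.pi / 2 := by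
    have hc : ContinuousAt (fun z : ℝ × ℝ => |z.2|) (r, φ) := by fun_prop
    exact hc.eventually (gt_mem_nhds hφ)
  have e2 : ∀ᶠ z : ℝ × ℝ in 𝓝 (r, φ), |2 * Real.sin z.2| < 1 := by
    have hc : ContinuousAt (fun z : ℝ × ℝ => |2 * Real.sin z.2|) (r, φ) := by fun_prop
    exact hc.eventually (gt_mem_nhds h0)
  have key : ∀ᶠ z : ℝ × ℝ in 𝓝 (r, φ), (F z).2 = Real.arcsin (-2 * Real.sin z.2) := by
    filter_upwards [e1, e2, hst] with z h1 h2 h3
    obtain ⟨h4, h5⟩ := step_coord z.1 z.2 h1 h2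
    have h6 := Step.unique table h5 h3.2
    have h7 : ca 1 (Fm z).1 = ca j (F z).1 := congrArg Prod.fst h6
    obtain ⟨hj, -⟩ := (table.simple 1 j _ _).1 h7
    subst hj
    have h8 : normal ca 1 (Fm z).1 * ex (Fm z).2 = normal ca 1 (F z).1 * ex (F z).2 :=
      congrArg Prod.snd h6
    rw [table.normal_eq h7] at h8
    have hn1 : normal ca 1 (F z).1 ≠ 0 := by
      rw [normal1]
      exact Complex.exp_ne_zero _
    exact (ex_inj h4 h3.1 (mul_left_cancel₀ hn1 h8)).symm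
  -- derivative in the direction `(0, 1)`
  have hl : HasDerivAt (fun s : ℝ => ((r, s) : ℝ × ℝ)) (0, 1) φ :=
    (hasDerivAt_const φ r).prodMk (hasDerivAt_id φ)
  have hcomp : HasDerivAt (fun s : ℝ => F (r, s)) (A (0, 1)) φ :=
    HasFDerivAt.comp_hasDerivAt (x := φ) (f := fun s : ℝ => ((r, s) : ℝ × ℝ)) (l := F)
      (l' := A) hF hl
  have hsnd : HasDerivAt (fun s : ℝ => (F (r, s)).2) (A (0, 1)).2 φ := by
    have := (ContinuousLinearMap.snd ℝ ℝ ℝ).hasFDerivAt.comp_hasDerivAt φ hcomp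
    exact this
  have hc : ContinuousAt (fun s : ℝ => ((r, s) : ℝ × ℝ)) φ := by fun_prop
  have hev : (fun s : ℝ => (F (r, s)).2) =ᶠ[𝓝 φ] fun s => Real.arcsin (-2 * Real.sin s) :=
    hc.eventually key
  have hval := (hsnd.congr_of_eventuallyEq hev.symm).unique (hasDeriv_arcsin h0)
  have hcosφ : Real.cos φ = Real.cos (bt ψ) := by rw [← hφb, Real.cos_neg]
  have hsq : √(1 - (-2 * Real.sin φ) ^ 2) = Real.cos ψ := by
    have : 1 - (-2 * Real.sin φ) ^ 2 = Real.cos ψ ^ 2 := by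
      rw [← hφb, Real.sin_neg, sin_bt]
      nlinarith [Real.sin_sq_add_cos_sq ψ]
    rw [this, Real.sqrt_sq hcp.le]
  rw [hsq, hcosφ] at hval
  have h9 : |(A (0, 1)).2| ≤ ‖A‖ := by
    have h10 : ‖A (0, 1)‖ ≤ ‖A‖ * ‖((0, 1) : ℝ × ℝ)‖ := A.le_opNorm _
    have h11 : ‖((0, 1) : ℝ × ℝ)‖ = 1 := by simp [Prod.norm_def]
    rw [h11, mul_one] at h10
    have h12 : |(A (0, 1)).2| ≤ ‖A (0, 1)‖ := by
      rw [← Real.norm_eq_abs]
      exact norm_snd_le _
    exact h12.trans h10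
  refine le_trans ?_ h9
  rw [hval, abs_div, abs_of_pos hcp, show -2 * Real.cos (bt ψ) = -(2 * Real.cos (bt ψ)) by ring,
    abs_neg, abs_of_pos (by linarith [cos_bt_pos ψ])]
  apply div_le_div_of_nonneg_right _ hcp.le
  have h3 := cos_bt_sq ψ
  have h4 := cos_bt_pos ψ
  nlinarith [sq_nonneg (Real.cos ψ)]

end Pool.Agent.Y294.AN
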