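import Pool.Agent.Y294.AN.Dyn

/-!
# The invariant measure
-/

set_option autoImplicit false

namespace Pool.Agent.Y294.AN

open Complex Set Filter Topology MeasureTheory
open scoped ContDiff ComplexConjugate ENNReal

/-- the angle at the inner circle as a function of the parameter -/
noncomputable def ps (s : ℝ) : ℝ := Real.arccos (Real.exp (-s⁻¹))

theorem exp_mem {s : ℝ} (hs : s ∈ Ioo (0 : ℝ) 1) : Real.exp (-s⁻¹) ∈ Ioo (0 : ℝ) 1 := by
  refine ⟨Real.exp_pos _, ?_⟩
  rw [Real.exp_lt_one_iff]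
  have := inv_pos.2 hs.1
  linarith

theorem cos_ps {s : ℝ} (hs : s ∈ Ioo (0 : ℝ) 1) : Real.cos (ps s) = Real.exp (-s⁻¹) :=
  Real.cos_arccos (by linarith [(exp_mem hs).1]) (exp_mem hs).2.le

theorem ps_mem {s : ℝ} (hs : s ∈ Ioo (0 : ℝ) 1) : ps s ∈ Ioo 0 (Real.pi / 2) :=
  ⟨Real.arccos_pos.2 (exp_mem hs).2, Real.arccos_lt_pi_div_two.2 (exp_mem hs).1⟩

theorem abs_lt_of_mem {ψ : ℝ} (h : ψ ∈ Ioo 0 (Real.pi / 2)) : |ψ| < Real.pi / 2 := by
  rw [abs_of_pos h.1]; exact h.2

theorem ps_inj : InjOn ps (Ioo 0 1) := by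
  intro s hs t ht h
  have h1 : Real.exp (-s⁻¹) = Real.exp (-t⁻¹) := by rw [← cos_ps hs, ← cos_ps ht, h]
  have h2 := Real.exp_injective h1
  exact inv_injective (neg_injective h2)

theorem measurable_ps : Measurable ps := by
  unfold ps
  exact Real.continuous_arccos.measurable.comp
    (Real.continuous_exp.measurable.comp measurable_id.inv.neg)

theorem continuous_bt : Continuous bt :=
  Real.continuous_arcsin.comp (Real.continuous_sin.div_const 2)

theorem continuous_dl : Continuous dl := continuous_id.sub continuous_bt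

theorem continuous_ex : Continuous ex := by unfold ex; fun_prop

/-- the circle -/
abbrev Ci : Type := AddCircle (2 * Real.pi)

instance : Fact (0 < 2 * Real.pi) := ⟨by positivity⟩

/-- the point of the unit circle -/
noncomputable def E (u : Ci) : ℂ := (AddCircle.toCircle u : ℂ)

theorem E_coe (x : ℝ) : E (x : Ci) = ex x := by
  unfold E ex
  rw [AddCircle.toCircle_apply_mk, Circle.coe_exp]
  congr 2
  have : 2 * Real.pi ≠ 0 := by positivity
  rw [div_self this, one_mul]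

theorem E_add (u v : Ci) : E (u + v) = E u * E v := by
  unfold E
  rw [AddCircle.toCircle_add]
  rfl

theorem continuous_E : Continuous E :=
  continuous_subtype_val.comp AddCircle.continuous_toCircle

theorem exists_coe (u : Ci) : ∃ a : ℝ, (a : Ci) = u := QuotientAddGroup.mk_surjective u

/-- parametrisation of the outer states -/
noncomputable def Y0 (z : ℝ × Ci) : ℂ × ℂ := (2 * E z.2, -(E z.2 * ex (-bt (ps z.1))))

/-- parametrisation of the inner states -/
noncomputable def Y1 (z : ℝ × Ci) : ℂ × ℂ := (E z.2, E z.2 * ex (ps z.1))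

/-- the map in the parameters -/
noncomputable def sg (z : ℝ × Ci) : ℝ × Ci := (z.1, z.2 + ((dl (ps z.1) : ℝ) : Ci))

theorem Y0_coe (s a : ℝ) : Y0 (s, (a : Ci)) = X0 a (ps s) := by
  simp only [Y0, X0, E_coe]

theorem Y1_coe (s a : ℝ) : Y1 (s, (a : Ci)) = X1 a (ps s) := by
  simp only [Y1, X1, E_coe]

theorem sg_coe (s a : ℝ) : sg (s, (a : Ci)) = (s, ((a + dl (ps s) : ℝ) : Ci)) := by
  simp only [sg, AddCircle.coe_add]

theorem measurable_Y0 : Measurable Y0 := by
  unfold Y0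
  have h1 : Measurable fun z : ℝ × Ci => E z.2 := continuous_E.measurable.comp measurable_snd
  have h2 : Measurable fun z : ℝ × Ci => ex (-bt (ps z.1)) :=
    (continuous_ex.comp continuous_bt.neg).measurable.comp (measurable_ps.comp measurable_fst)
  exact (h1.const_mul 2).prodMk (h1.mul h2).neg

theorem measurable_Y1 : Measurable Y1 := by
  unfold Y1
  have h1 : Measurable fun z : ℝ × Ci => E z.2 := continuous_E.measurable.comp measurable_snd
  have h2 : Measurable fun z : ℝ × Ci => ex (ps z.1) :=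
    continuous_ex.measurable.comp (measurable_ps.comp measurable_fst)
  exact h1.prodMk (h1.mul h2)

/-- the measure on the parameters -/
noncomputable def rho : Measure (ℝ × Ci) :=
  (volume.restrict (Ioo (0 : ℝ) 1)).prod AddCircle.haarAddCircle

instance : IsProbabilityMeasure (volume.restrict (Ioo (0 : ℝ) 1)) := by
  constructor
  rw [Measure.restrict_apply_univ, Real.volume_Ioo]
  simp

instance : IsProbabilityMeasure rho := by
  unfold rho; infer_instance

theorem mp_sg : MeasurePreserving sg rho rho := by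
  unfold rho sg
  apply MeasurePreserving.skew_product (f := fun s : ℝ => s)
    (g := fun (s : ℝ) (u : Ci) => u + ((dl (ps s) : ℝ) : Ci)) (MeasurePreserving.id _)
  · have h1 : Measurable fun z : ℝ × Ci => ((dl (ps z.1) : ℝ) : Ci) := by
      have h2 : Continuous fun x : ℝ => ((dl x : ℝ) : Ci) :=
        (AddCircle.continuous_mk' _).comp continuous_dl
      exact h2.measurable.comp (measurable_ps.comp measurable_fst)
    exact measurable_snd.add h1
  · exact Eventually.of_forall fun s => (measurePreserving_add_right _ _).map_eq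

/-- almost every parameter is in the interval -/
theorem ae_mem : ∀ᵐ z ∂rho, z.1 ∈ Ioo (0 : ℝ) 1 := by
  have h1 : ∀ᵐ s ∂(volume.restrict (Ioo (0 : ℝ) 1)), s ∈ Ioo (0 : ℝ) 1 :=
    ae_restrict_mem measurableSet_Ioo
  exact Measure.quasiMeasurePreserving_fst.ae h1

/-- angular momentum -/
noncomputable def Lm (x : ℂ × ℂ) : ℝ := (conj x.1 * x.2).im

theorem continuous_Lm : Continuous Lm := by unfold Lm; fun_prop

theorem Lm_X0 (a ψ : ℝ) : Lm (X0 a ψ) = Real.sin ψ := by
  unfold Lm X0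
  have e : conj (2 * ex a) * -(ex a * ex (-bt ψ)) = -2 * ex (-bt ψ) := by
    rw [map_mul, conj_ex]
    have := ex_neg a
    have h2 : conj (2 : ℂ) = 2 := Complex.conj_ofNat 2
    rw [h2]
    linear_combination (-2 * ex (-bt ψ)) * this
  simp only [e]
  simp [ex_im, sin_bt]
  try ring

theorem Lm_X1 (a ψ : ℝ) : Lm (X1 a ψ) = Real.sin ψ := by
  unfold Lm X1
  have e : conj (ex a) * (ex a * ex ψ) = ex ψ := by
    rw [conj_ex]
    have := ex_neg a
    linear_combination (ex ψ) * this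
  simp only [e, ex_im]

/-- the billiard map by a formula -/
noncomputable def G (x : ℂ × ℂ) : ℂ × ℂ :=
  if ‖x.1‖ = 2 then
    (x.1 / 2 * ex (dl (Real.arcsin (Lm x))),
      x.1 / 2 * ex (dl (Real.arcsin (Lm x))) * ex (Real.arcsin (Lm x)))
  else
    (2 * (x.1 * ex (dl (Real.arcsin (Lm x)))),
      -(x.1 * ex (dl (Real.arcsin (Lm x))) * ex (-bt (Real.arcsin (Lm x)))))

theorem measurable_G : Measurable G := by
  unfold G
  have h1 : Continuous fun x : ℂ × ℂ => ex (dl (Real.arcsin (Lm x))) :=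
    continuous_ex.comp (continuous_dl.comp (Real.continuous_arcsin.comp continuous_Lm))
  have h2 : Continuous fun x : ℂ × ℂ => ex (Real.arcsin (Lm x)) :=
    continuous_ex.comp (Real.continuous_arcsin.comp continuous_Lm)
  have h3 : Continuous fun x : ℂ × ℂ => ex (-bt (Real.arcsin (Lm x))) :=
    continuous_ex.comp (continuous_bt.comp (Real.continuous_arcsin.comp continuous_Lm)).neg
  apply Measurable.ite
  · exact (isClosed_eq (by fun_prop) continuous_const).measurableSet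
  · apply Continuous.measurable
    fun_prop
  · apply Continuous.measurable
    fun_prop

theorem G_X0 (a ψ : ℝ) (hψ : |ψ| < Real.pi / 2) : G (X0 a ψ) = X1 (a + dl ψ) ψ := by
  have h := abs_lt.1 hψ
  have h1 : Real.arcsin (Lm (X0 a ψ)) = ψ := by
    rw [Lm_X0, Real.arcsin_sin h.1.le h.2.le]
  unfold G
  rw [h1, if_pos (by simp [X0, norm_ex])]
  simp only [X0, X1, ex_add]
  refine Prod.ext ?_ ?_
  · simp only; ring
  · simp only; ring

theorem G_X1 (a ψ : ℝ) (hψ : |ψ| < Real.pi / 2) : G (X1 a ψ) = X0 (a + dl ψ) ψ := by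
  have h := abs_lt.1 hψ
  have h1 : Real.arcsin (Lm (X1 a ψ)) = ψ := by
    rw [Lm_X1, Real.arcsin_sin h.1.le h.2.le]
  unfold G
  rw [h1, if_neg (by simp [X1, norm_ex])]
  simp only [X0, X1, ex_add]

/-- the good outer states -/
def Z0 : Set (ℂ × ℂ) :=
  {x | ‖x.1‖ = 2 ∧ ‖x.2‖ = 1 ∧ 0 < Lm x ∧ Lm x < 1 ∧ (conj x.1 * x.2).re < 0}

/-- the good inner states -/
def Z1 : Set (ℂ × ℂ) :=
  {x | ‖x.1‖ = 1 ∧ ‖x.2‖ = 1 ∧ 0 < Lm x ∧ Lm x < 1 ∧ 0 < (conj x.1 * x.2).re}

theorem measurableSet_Z0 : MeasurableSet Z0 := by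
  unfold Z0
  have h1 : Continuous fun x : ℂ × ℂ => ‖x.1‖ := by fun_prop
  have h2 : Continuous fun x : ℂ × ℂ => ‖x.2‖ := by fun_prop
  have h3 : Continuous fun x : ℂ × ℂ => (conj x.1 * x.2).re := by fun_prop
  exact (isClosed_eq h1 continuous_const).measurableSet.inter
    ((isClosed_eq h2 continuous_const).measurableSet.inter
      ((isOpen_lt continuous_const continuous_Lm).measurableSet.inter
        ((isOpen_lt continuous_Lm continuous_const).measurableSet.inter
          (isOpen_lt h3 continuous_const).measurableSet)))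

theorem measurableSet_Z1 : MeasurableSet Z1 := by
  unfold Z1
  have h1 : Continuous fun x : ℂ × ℂ => ‖x.1‖ := by fun_prop
  have h2 : Continuous fun x : ℂ × ℂ => ‖x.2‖ := by fun_prop
  have h3 : Continuous fun x : ℂ × ℂ => (conj x.1 * x.2).re := by fun_prop
  exact (isClosed_eq h1 continuous_const).measurableSet.inter
    ((isClosed_eq h2 continuous_const).measurableSet.inter
      ((isOpen_lt continuous_const continuous_Lm).measurableSet.inter
        ((isOpen_lt continuous_Lm continuous_const).measurableSet.inter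
          (isOpen_lt continuous_const h3).measurableSet)))

theorem sin_mem {ψ : ℝ} (h : ψ ∈ Ioo 0 (Real.pi / 2)) : Real.sin ψ ∈ Ioo (0 : ℝ) 1 := by
  refine ⟨Real.sin_pos_of_pos_of_lt_pi h.1 (by linarith [h.2, Real.pi_pos]), ?_⟩
  have h1 : 0 < Real.cos ψ := Real.cos_pos_of_mem_Ioo ⟨by linarith [h.1, Real.pi_pos], h.2⟩
  have h2 := Real.sin_sq_add_cos_sq ψ
  have h3 : 0 < Real.sin ψ := Real.sin_pos_of_pos_of_lt_pi h.1 (by linarith [h.2, Real.pi_pos])
  nlinarith

theorem X0_mem (a : ℝ) {ψ : ℝ} (h : ψ ∈ Ioo 0 (Real.pi / 2)) : X0 a ψ ∈ Z0 := by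
  refine ⟨by simp [X0, norm_ex], by simp [X0, norm_ex], ?_, ?_, ?_⟩
  · rw [Lm_X0]; exact (sin_mem h).1
  · rw [Lm_X0]; exact (sin_mem h).2
  · have e : conj (X0 a ψ).1 * (X0 a ψ).2 = -2 * ex (-bt ψ) := by
      simp only [X0]
      rw [map_mul, conj_ex]
      have := ex_neg a
      have h2 : conj (2 : ℂ) = 2 := Complex.conj_ofNat 2
      rw [h2]
      linear_combination (-2 * ex (-bt ψ)) * this
    rw [e]
    simp only [neg_mul, Complex.neg_re, Complex.mul_re, ex_re, Complex.re_ofNat, Complex.im_ofNat,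
      Real.cos_neg, zero_mul, sub_zero]
    linarith [cos_bt_pos ψ]

theorem X1_mem (a : ℝ) {ψ : ℝ} (h : ψ ∈ Ioo 0 (Real.pi / 2)) : X1 a ψ ∈ Z1 := by
  refine ⟨by simp [X1, norm_ex], by simp [X1, norm_ex], ?_, ?_, ?_⟩
  · rw [Lm_X1]; exact (sin_mem h).1
  · rw [Lm_X1]; exact (sin_mem h).2
  · have e : conj (X1 a ψ).1 * (X1 a ψ).2 = ex ψ := by
      simp only [X1]
      rw [conj_ex]
      have := ex_neg a
      linear_combination (ex ψ) * this
    rw [e, ex_re]
    exact Real.cos_pos_of_mem_Ioo ⟨by linarith [h.1, Real.pi_pos], h.2⟩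

theorem arcsin_mem {l : ℝ} (h0 : 0 < l) (h1 : l < 1) : Real.arcsin l ∈ Ioo 0 (Real.pi / 2) :=
  ⟨Real.arcsin_pos.2 h0, Real.arcsin_lt_pi_div_two.2 h1⟩

theorem of_mem_Z0 {x : ℂ × ℂ} (h : x ∈ Z0) : ∃ a : ℝ, ∃ ψ ∈ Ioo 0 (Real.pi / 2), x = X0 a ψ := by
  obtain ⟨h1, h2, h3, h4, h5⟩ := h
  obtain ⟨a, ha⟩ := exists_arg x.1 h1
  have ha' : x.1 = 2 * ex a := by rw [ha]; simp [ex]
  refine ⟨a, Real.arcsin (Lm x), arcsin_mem h3 h4, ?_⟩
  set ψ := Real.arcsin (Lm x) with hψ
  have hs : Real.sin ψ = Lm x := Real.sin_arcsin (by linarith) (by linarith)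
  refine Prod.ext ha' ?_
  show x.2 = -(ex a * ex (-bt ψ))
  set w := conj x.1 * x.2 with hw
  have hwx : ex a * w = 2 * x.2 := by
    rw [hw, ha', map_mul, conj_ex]
    have h6 : conj (2 : ℂ) = 2 := Complex.conj_ofNat 2
    rw [h6]
    linear_combination (2 * x.2) * ex_neg a
  have hn : ‖w‖ = 2 := by rw [hw, norm_mul, Complex.norm_conj, h1, h2]; norm_num
  have hn2 : w.re ^ 2 + w.im ^ 2 = 4 := by rw [← normSq_eq, hn]; norm_num
  have him : w.im = Lm x := rfl
  have hre : w.re = -2 * Real.cos (bt ψ) := by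
    have h7 := Real.sin_sq_add_cos_sq (bt ψ)
    rw [sin_bt, hs, ← him] at h7
    have h8 := cos_bt_pos ψ
    have h9 : (w.re - 2 * Real.cos (bt ψ)) * (w.re + 2 * Real.cos (bt ψ)) = 0 := by nlinarith
    rcases mul_eq_zero.1 h9 with h | h
    · nlinarith
    · linarith
  have hw2 : w = -2 * ex (-bt ψ) := by
    apply Complex.ext
    · rw [hre]
      simp [ex_re]
    · rw [him, ← hs]
      simp [ex_im, sin_bt]
      try ring
  rw [hw2] at hwx
  linear_combination (-1 / 2 : ℂ) * hwx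

theorem of_mem_Z1 {x : ℂ × ℂ} (h : x ∈ Z1) : ∃ a : ℝ, ∃ ψ ∈ Ioo 0 (Real.pi / 2), x = X1 a ψ := by
  obtain ⟨h1, h2, h3, h4, h5⟩ := h
  obtain ⟨a, ha⟩ := exists_arg x.1 h1
  have ha' : x.1 = ex a := by rw [ha]; simp [ex]
  refine ⟨a, Real.arcsin (Lm x), arcsin_mem h3 h4, ?_⟩
  set ψ := Real.arcsin (Lm x) with hψ
  have hs : Real.sin ψ = Lm x := Real.sin_arcsin (by linarith) (by linarith)
  have hψm := arcsin_mem h3 h4
  have hc : 0 < Real.cos ψ :=
    Real.cos_pos_of_mem_Ioo ⟨by linarith [hψm.1, Real.pi_pos], hψm.2⟩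
  refine Prod.ext ha' ?_
  show x.2 = ex a * ex ψ
  set w := conj x.1 * x.2 with hw
  have hwx : ex a * w = x.2 := by
    rw [hw, ha', conj_ex]
    linear_combination (x.2) * ex_neg a
  have hn : ‖w‖ = 1 := by rw [hw, norm_mul, Complex.norm_conj, h1, h2]; norm_num
  have hn2 : w.re ^ 2 + w.im ^ 2 = 1 := by rw [← normSq_eq, hn]; norm_num
  have him : w.im = Lm x := rfl
  have hre : w.re = Real.cos ψ := by
    have h7 := Real.sin_sq_add_cos_sq ψ
    rw [hs, ← him] at h7
    have h9 : (w.re - Real.cos ψ) * (w.re + Real.cos ψ) = 0 := by nlinarith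
    rcases mul_eq_zero.1 h9 with h | h
    · linarith
    · nlinarith
  have hw2 : w = ex ψ := by
    apply Complex.ext
    · rw [hre, ex_re]
    · rw [him, ← hs, ex_im]
  rw [← hwx, hw2]

/-- the measure -/
noncomputable def mu : Measure (ℂ × ℂ) :=
  (1 / 2 : ℝ≥0∞) • Measure.map Y0 rho + (1 / 2 : ℝ≥0∞) • Measure.map Y1 rho

instance : IsProbabilityMeasure mu := by
  have h0 : IsProbabilityMeasure (Measure.map Y0 rho) :=
    Measure.isProbabilityMeasure_map measurable_Y0.aemeasurable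
  have h1 : IsProbabilityMeasure (Measure.map Y1 rho) :=
    Measure.isProbabilityMeasure_map measurable_Y1.aemeasurable
  constructor
  unfold mu
  simp only [Measure.add_apply, Measure.smul_apply, smul_eq_mul, measure_univ, mul_one]
  exact ENNReal.add_halves 1

/-- exceptional angles -/
def Bad : Set ℝ := {ψ | ψ ∈ Ioo 0 (Real.pi / 2) ∧ ∃ q : ℚ, dl ψ = q * Real.pi}

theorem dl_inj : InjOn dl (Ioo 0 (Real.pi / 2)) := by
  intro x hx y hy h
  -- `sin ψ = 2 sin b`, `ψ = d + b`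
  have key : ∀ ψ ∈ Ioo 0 (Real.pi / 2),
      Real.sin (dl ψ) * Real.cos (bt ψ) = (2 - Real.cos (dl ψ)) * Real.sin (bt ψ) := by
    intro ψ _
    have h1 : Real.sin ψ = Real.sin (dl ψ + bt ψ) := by congr 1; unfold dl; ring
    have h2 := sin_bt ψ
    rw [Real.sin_add] at h1
    linarith
  have hx1 := key x hx
  have hy1 := key y hy
  rw [← h] at hy1
  have hd : 0 < 2 - Real.cos (dl x) := by linarith [Real.cos_le_one (dl x)]
  have hcx := cos_bt_pos x
  have hcy := cos_bt_pos y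
  -- `sin (bx - by) = 0`
  have h3 : Real.sin (bt x - bt y) = 0 := by
    rw [Real.sin_sub]
    have h4 : (2 - Real.cos (dl x)) *
        (Real.sin (bt x) * Real.cos (bt y) - Real.cos (bt x) * Real.sin (bt y)) = 0 := by
      linear_combination (-(Real.cos (bt y))) * hx1 + Real.cos (bt x) * hy1
    rcases mul_eq_zero.1 h4 with h5 | h5
    · linarith
    · exact h5
  have hbx := abs_lt.1 (abs_bt x)
  have hby := abs_lt.1 (abs_bt y)
  have h6 : bt x - bt y = 0 := by
    rwa [Real.sin_eq_zero_iff_of_lt_of_lt (by linarith) (by linarith)] at h3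
  unfold dl at h
  linarith

theorem countable_Bad : Bad.Countable := by
  apply Set.countable_of_injective_of_countable_image (f := dl)
  · exact dl_inj.mono fun x hx => hx.1
  · refine (Set.countable_range fun q : ℚ => (q : ℝ) * Real.pi).mono ?_
    rintro _ ⟨x, ⟨-, q, hq⟩, rfl⟩
    exact ⟨q, hq.symm⟩

/-- exceptional angular momenta -/
def BadL : Set ℝ := Real.sin '' Bad

theorem countable_BadL : BadL.Countable := countable_Bad.image _

theorem ae_good : ∀ᵐ z ∂rho, z.1 ∈ Ioo (0 : ℝ) 1 ∧ Real.sin (ps z.1) ∉ BadL := by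
  have h0 : ∀ᵐ s ∂(volume.restrict (Ioo (0 : ℝ) 1)), s ∈ Ioo (0 : ℝ) 1 :=
    ae_restrict_mem measurableSet_Ioo
  have hc : (Ioo (0 : ℝ) 1 ∩ ps ⁻¹' Bad).Countable := by
    apply Set.countable_of_injective_of_countable_image (f := ps)
    · exact ps_inj.mono inter_subset_left
    · refine countable_Bad.mono ?_
      rintro _ ⟨s, hs, rfl⟩
      exact hs.2
  have h1 : ∀ᵐ s ∂(volume.restrict (Ioo (0 : ℝ) 1)), s ∉ Ioo (0 : ℝ) 1 ∩ ps ⁻¹' Bad := by
    rw [ae_iff]
    simp only [not_not]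
    exact hc.measure_zero _
  have h2 : ∀ᵐ s ∂(volume.restrict (Ioo (0 : ℝ) 1)),
      s ∈ Ioo (0 : ℝ) 1 ∧ Real.sin (ps s) ∉ BadL := by
    filter_upwards [h0, h1] with s hs hs1
    refine ⟨hs, ?_⟩
    rintro ⟨ψ, hψ, he⟩
    have h3 := ps_mem hs
    have h4 : ψ = ps s := by
      apply Real.injOn_sin _ _ he
      · exact ⟨by linarith [hψ.1.1, Real.pi_pos], hψ.1.2.le⟩
      · exact ⟨by linarith [h3.1, Real.pi_pos], h3.2.le⟩
    exact hs1 ⟨hs, by show ps s ∈ Bad; rw [← h4]; exact hψ⟩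
  exact Measure.quasiMeasurePreserving_fst.ae h2

theorem ae0 : ∀ᵐ x ∂(Measure.map Y0 rho), x ∈ Z0 ∧ Lm x ∉ BadL := by
  have hm : MeasurableSet {x | x ∈ Z0 ∧ Lm x ∉ BadL} :=
    measurableSet_Z0.inter ((countable_BadL.measurableSet.preimage continuous_Lm.measurable).compl)
  rw [ae_map_iff measurable_Y0.aemeasurable hm]
  filter_upwards [ae_good] with z hz
  obtain ⟨s, u⟩ := z
  obtain ⟨a, rfl⟩ := exists_coe u
  rw [Y0_coe]
  refine ⟨X0_mem a (ps_mem hz.1), ?_⟩
  rw [Lm_X0]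
  exact hz.2

theorem ae1 : ∀ᵐ x ∂(Measure.map Y1 rho), x ∈ Z1 ∧ Lm x ∉ BadL := by
  have hm : MeasurableSet {x | x ∈ Z1 ∧ Lm x ∉ BadL} :=
    measurableSet_Z1.inter ((countable_BadL.measurableSet.preimage continuous_Lm.measurable).compl)
  rw [ae_map_iff measurable_Y1.aemeasurable hm]
  filter_upwards [ae_good] with z hz
  obtain ⟨s, u⟩ := z
  obtain ⟨a, rfl⟩ := exists_coe u
  rw [Y1_coe]
  refine ⟨X1_mem a (ps_mem hz.1), ?_⟩
  rw [Lm_X1]
  exact hz.2

/-- almost every state lies on an explicit orbit -/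
theorem ae_orb : ∀ᵐ x ∂mu, ∃ (a ψ : ℝ) (k : ℤ), ψ ∈ Ioo 0 (Real.pi / 2) ∧ x = orb a ψ k ∧
    (∀ q : ℚ, dl ψ ≠ q * Real.pi) ∧ (x = X0 a ψ ∨ ∃ b, x = X1 b ψ) := by
  unfold mu
  rw [ae_add_measure_iff]
  have hbad : ∀ {ψ : ℝ}, ψ ∈ Ioo 0 (Real.pi / 2) → Real.sin ψ ∉ BadL →
      ∀ q : ℚ, dl ψ ≠ q * Real.pi := fun hψ h q hq => h ⟨_, ⟨hψ, q, hq⟩, rfl⟩
  constructor
  · refine Measure.ae_smul_measure ?_ _
    filter_upwards [ae0] with x hx
    obtain ⟨a, ψ, hψ, rfl⟩ := of_mem_Z0 hx.1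
    refine ⟨a, ψ, 0, hψ, (orb_zero a ψ).symm, hbad hψ ?_, Or.inl rfl⟩
    have := hx.2
    rwa [Lm_X0] at this
  · refine Measure.ae_smul_measure ?_ _
    filter_upwards [ae1] with x hx
    obtain ⟨a, ψ, hψ, rfl⟩ := of_mem_Z1 hx.1
    refine ⟨a - dl ψ, ψ, 1, hψ, (orb_one a ψ).symm, hbad hψ ?_, Or.inr ⟨a, rfl⟩⟩
    have := hx.2
    rwa [Lm_X1] at this

theorem billiard_X0 (a : ℝ) {ψ : ℝ} (h : |ψ| < Real.pi / 2) :
    billiardMap Ann ca (X0 a ψ) = X1 (a + dl ψ) ψ := billiardMap_eq table (step01 a ψ h)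

theorem billiard_X1 (a : ℝ) {ψ : ℝ} (h : |ψ| < Real.pi / 2) :
    billiardMap Ann ca (X1 a ψ) = X0 (a + dl ψ) ψ := billiardMap_eq table (step10 a ψ h)

theorem ae_G : billiardMap Ann ca =ᵐ[mu] G := by
  filter_upwards [ae_orb] with x hx
  obtain ⟨a, ψ, k, hψ, -, -, rfl | ⟨b, rfl⟩⟩ := hx
  · rw [billiard_X0 a (abs_lt_of_mem hψ), G_X0 a ψ (abs_lt_of_mem hψ)]
  · rw [billiard_X1 b (abs_lt_of_mem hψ), G_X1 b ψ (abs_lt_of_mem hψ)]

theorem map_G : Measure.map G mu = mu := by
  unfold mu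
  rw [Measure.map_add _ _ measurable_G, Measure.map_smul, Measure.map_smul,
    Measure.map_map measurable_G measurable_Y0, Measure.map_map measurable_G measurable_Y1]
  have h0 : Measure.map (G ∘ Y0) rho = Measure.map Y1 rho := by
    have e : G ∘ Y0 =ᵐ[rho] Y1 ∘ sg := by
      filter_upwards [ae_mem] with z hz
      obtain ⟨s, u⟩ := z
      obtain ⟨a, rfl⟩ := exists_coe u
      simp only [Function.comp_apply]
      rw [Y0_coe, sg_coe, Y1_coe, G_X0 a _ (abs_lt_of_mem (ps_mem hz))]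
    rw [Measure.map_congr e, ← Measure.map_map measurable_Y1 mp_sg.measurable, mp_sg.map_eq]
  have h1 : Measure.map (G ∘ Y1) rho = Measure.map Y0 rho := by
    have e : G ∘ Y1 =ᵐ[rho] Y0 ∘ sg := by
      filter_upwards [ae_mem] with z hz
      obtain ⟨s, u⟩ := z
      obtain ⟨a, rfl⟩ := exists_coe u
      simp only [Function.comp_apply]
      rw [Y1_coe, sg_coe, Y0_coe, G_X1 a _ (abs_lt_of_mem (ps_mem hz))]
    rw [Measure.map_congr e, ← Measure.map_map measurable_Y0 mp_sg.measurable, mp_sg.map_eq]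
  rw [h0, h1, add_comm]

theorem isInvariant : IsInvariant Ann ca mu where
  prob := inferInstance
  regular := by
    filter_upwards [ae_orb] with x hx
    obtain ⟨a, ψ, k, hψ, rfl, -, -⟩ := hx
    refine ⟨fun m => orb a ψ (k + m), by simp, fun m => ?_⟩
    have := orb_step a ψ (abs_lt_of_mem hψ) (k + m)
    rwa [add_assoc] at this
  invariant := by
    rw [Measure.map_congr ae_G, map_G]

theorem ae_not_periodic : ∀ᵐ x ∂mu, ∀ n : ℕ, 1 ≤ n → (billiardMap Ann ca)^[n] x ≠ x := by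
  filter_upwards [ae_orb] with x hx n hn
  obtain ⟨a, ψ, k, hψ, rfl, hq, -⟩ := hx
  exact not_periodic a ψ (abs_lt_of_mem hψ) hq k n hn

/-- logarithmic divergence -/
theorem lintegral_inv : ∫⁻ s in Ioo (0 : ℝ) 1, ENNReal.ofReal s⁻¹ = ⊤ := by
  by_contra hcon
  have hlt : ∫⁻ s in Ioo (0 : ℝ) 1, ENNReal.ofReal s⁻¹ < ⊤ := lt_top_iff_ne_top.2 hcon
  have hi : IntegrableOn (fun s : ℝ => s⁻¹) (Ioo 0 1) volume := by
    refine ⟨measurable_id.inv.aestronglyMeasurable, ?_⟩
    rw [hasFiniteIntegral_iff_ofReal]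
    · exact hlt
    · filter_upwards [ae_restrict_mem (measurableSet_Ioo (a := (0:ℝ)) (b := 1))] with s hs
      exact (inv_pos.2 hs.1).le
  have h2 : IntervalIntegrable (fun s : ℝ => s⁻¹) volume 0 1 := by
    rw [intervalIntegrable_iff_integrableOn_Ioo_of_le zero_le_one]
    exact hi
  rw [intervalIntegrable_inv_iff] at h2
  rcases h2 with h2 | h2
  · norm_num at h2
  · exact h2 (by simp)

/-- lower bound for the logarithm of the derivative in terms of the angular momentum -/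
noncomputable def kf (x : ℂ × ℂ) : ℝ := -(1 / 2) * Real.log (1 - Lm x ^ 2)

theorem kf_X0 (a : ℝ) {ψ : ℝ} (h : ψ ∈ Ioo 0 (Real.pi / 2)) :
    kf (X0 a ψ) = -Real.log (Real.cos ψ) := by
  unfold kf
  rw [Lm_X0, show 1 - Real.sin ψ ^ 2 = Real.cos ψ ^ 2 by nlinarith [Real.sin_sq_add_cos_sq ψ],
    Real.log_pow]
  push_cast
  ring

theorem measurable_kf : Measurable kf := by
  unfold kf
  exact (Real.measurable_log.comp (by
    have : Continuous fun x => 1 - Lm x ^ 2 := by
      have := continuous_Lm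
      fun_prop
    exact this.measurable)).const_mul _

theorem infinite : ∫⁻ x, ENNReal.ofReal (Real.posLog ‖derivMap Ann ca x‖) ∂mu = ⊤ := by
  have h1 : ∫⁻ x, ENNReal.ofReal (Real.posLog ‖derivMap Ann ca x‖) ∂(Measure.map Y0 rho) = ⊤ := by
    rw [eq_top_iff]
    have h2 : ∫⁻ x, ENNReal.ofReal (kf x) ∂(Measure.map Y0 rho) = ⊤ := by
      rw [lintegral_map measurable_kf.ennreal_ofReal measurable_Y0]
      have e : (fun z => ENNReal.ofReal (kf (Y0 z))) =ᵐ[rho]
          fun z => ENNReal.ofReal z.1⁻¹ := by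
        filter_upwards [ae_mem] with z hz
        obtain ⟨s, u⟩ := z
        obtain ⟨a, rfl⟩ := exists_coe u
        rw [Y0_coe, kf_X0 a (ps_mem hz), cos_ps hz, Real.log_exp, neg_neg]
      rw [lintegral_congr_ae e]
      unfold rho
      rw [lintegral_prod _ (by
        exact (measurable_fst.inv.ennreal_ofReal).aemeasurable)]
      simp only [lintegral_const, measure_univ, mul_one]
      exact lintegral_inv
    rw [← h2]
    apply lintegral_mono_ae
    filter_upwards [ae0] with x hx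
    obtain ⟨a, ψ, hψ, rfl⟩ := of_mem_Z0 hx.1
    apply ENNReal.ofReal_le_ofReal
    rw [kf_X0 a hψ]
    have hc : 0 < Real.cos ψ :=
      Real.cos_pos_of_mem_Ioo ⟨by linarith [hψ.1, Real.pi_pos], hψ.2⟩
    have h3 := norm_ge a ψ (abs_lt_of_mem hψ)
      (derivMap_spec (hasDerivative a ψ (abs_lt_of_mem hψ)))
    have h4 : -Real.log (Real.cos ψ) = Real.log (1 / Real.cos ψ) := by
      rw [Real.log_div one_ne_zero hc.ne', Real.log_one, zero_sub]
    rw [h4]
    exact (Real.log_le_log (by positivity) h3).trans (le_max_right _ _)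
  unfold mu
  rw [lintegral_add_measure, lintegral_smul_measure, lintegral_smul_measure, h1]
  simp

end Pool.Agent.Y294.AN
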